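import Mathlib

/-!
# Truth-trees with parity
-/

namespace Q220.TruthTree

/-- Formulas built from sentence letters (numbered by natural numbers) with `¬, ∧, ∨, →`. -/
inductive Form : Type
  | letter (n : ℕ) : Form
  | neg (φ : Form) : Form
  | and (φ ψ : Form) : Form
  | or (φ ψ : Form) : Form
  | imp (φ ψ : Form) : Form

/-- The sentence letter `n` occurs in the formula. -/
def Occurs (n : ℕ) : Form → Prop
  | .letter m => n = m
  | .neg φ => Occurs n φ
  | .and φ ψ => Occurs n φ ∨ Occurs n ψ
  | .or φ ψ => Occurs n φ ∨ Occurs n ψ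
  | .imp φ ψ => Occurs n φ ∨ Occurs n ψ

/-- A node of a truth-tree: its formula, the positions on the branch of the nodes from which it
was obtained, and, when it is critical, the position of its partner. -/
structure Node where
  fml : Form
  inputs : List ℕ
  partner : Option ℕ

/-- `k` belongs to the trace of the node at position `n` of the branch `B`: the trace is the least
set which contains `n` and with each node the nodes from which it was obtained. -/
def Trace (B : List Node) (n k : ℕ) : Prop :=
  Relation.ReflTransGen (fun x y => ∃ a, B[x]? = some a ∧ y ∈ a.inputs) n k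

/-- Parity for the pair of nodes at the positions `i`, `j` of the branch `B`: for every critical
node `c` on `B`, `c` is in the union of the traces if and only if its partner is. -/
def Parity (B : List Node) (i j : ℕ) : Prop :=
  ∀ c a c', B[c]? = some a → a.partner = some c' →
    ((Trace B i c ∨ Trace B j c) ↔ (Trace B i c' ∨ Trace B j c'))

/-- `Good S B`: the branch `B` can be continued by the rules, the recursive rule being allowed for
implications in `S`, to a finite tree all of whose branches crash with parity. -/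
inductive Good (S : Set Form) : List Node → Prop
  /-- the branch crashes with parity -/
  | crash {B : List Node} (i j : ℕ) (a b : Node) (hi : B[i]? = some a) (hj : B[j]? = some b)
      (hab : b.fml = .neg a.fml) (hp : Parity B i j) : Good S B
  /-- from `¬¬θ` to `θ` -/
  | negneg {B : List Node} (i : ℕ) (a : Node) (θ : Form) (hi : B[i]? = some a)
      (ha : a.fml = .neg (.neg θ)) (h : Good S (B ++ [⟨θ, [i], none⟩])) : Good S B
  /-- from `θ ∧ χ` to `θ`, `χ` -/
  | conj {B : List Node} (i : ℕ) (a : Node) (θ χ : Form) (hi : B[i]? = some a)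
      (ha : a.fml = .and θ χ) (h : Good S (B ++ [⟨θ, [i], none⟩, ⟨χ, [i], none⟩])) : Good S B
  /-- from `¬(θ ∨ χ)` to `¬θ`, `¬χ` -/
  | negdisj {B : List Node} (i : ℕ) (a : Node) (θ χ : Form) (hi : B[i]? = some a)
      (ha : a.fml = .neg (.or θ χ))
      (h : Good S (B ++ [⟨.neg θ, [i], none⟩, ⟨.neg χ, [i], none⟩])) : Good S B
  /-- fork from `θ ∨ χ` into `θ` and `χ` -/
  | disj {B : List Node} (i : ℕ) (a : Node) (θ χ : Form) (hi : B[i]? = some a)
      (ha : a.fml = .or θ χ) (h₁ : Good S (B ++ [⟨θ, [i], none⟩]))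
      (h₂ : Good S (B ++ [⟨χ, [i], none⟩])) : Good S B
  /-- fork from `¬(θ ∧ χ)` into `¬θ` and `¬χ` -/
  | negconj {B : List Node} (i : ℕ) (a : Node) (θ χ : Form) (hi : B[i]? = some a)
      (ha : a.fml = .neg (.and θ χ)) (h₁ : Good S (B ++ [⟨.neg θ, [i], none⟩]))
      (h₂ : Good S (B ++ [⟨.neg χ, [i], none⟩])) : Good S B
  /-- counter-case: from `¬(θ → χ)` to the critical pair `θ`, `¬χ` -/
  | counter {B : List Node} (i : ℕ) (a : Node) (θ χ : Form) (hi : B[i]? = some a)
      (ha : a.fml = .neg (.imp θ χ))
      (h : Good S (B ++ [⟨θ, [i], some (B.length + 1)⟩, ⟨.neg χ, [i], some B.length⟩])) : Good S B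
  /-- modus ponens: from `θ` and `θ → χ` to `χ` -/
  | mp {B : List Node} (i j : ℕ) (a b : Node) (χ : Form) (hi : B[i]? = some a)
      (hj : B[j]? = some b) (hb : b.fml = .imp a.fml χ)
      (h : Good S (B ++ [⟨χ, [i, j], none⟩])) : Good S B
  /-- recursive rule: from `θ` to `χ` when `θ → χ` is in `S` -/
  | recursive {B : List Node} (i : ℕ) (a : Node) (χ : Form) (hi : B[i]? = some a)
      (hS : .imp a.fml χ ∈ S) (h : Good S (B ++ [⟨χ, [i], none⟩])) : Good S B

/-- `φ` has a good tree (with root `¬φ`) whose recursive-rule steps use formulas in `S`. -/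
def HasGoodTree (S : Set Form) (φ : Form) : Prop := Good S [⟨.neg φ, [], none⟩]

/-- The set of acceptable formulas: the least set `A` which contains every formula that has a good
tree whose recursive-rule steps all use formulas in `A`. -/
def Acceptable : Set Form := {φ | ∀ S : Set Form, (∀ ψ, HasGoodTree S ψ → ψ ∈ S) → φ ∈ S}

/-! ### Set semantics -/

variable {Ω : Type}

/-- truth at a set of points -/
def Forces (V : ℕ → Set (Set Ω)) : Set Ω → Form → Prop
  | X, .letter n => X ∈ V n
  | X, .neg φ => ¬ Forces V Xᶜ φ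
  | X, .and φ ψ => Forces V X φ ∧ Forces V X ψ
  | X, .or φ ψ => Forces V X φ ∨ Forces V X ψ
  | X, .imp φ ψ => ∀ Y, Forces V Y φ → Forces V (X ∪ Y) ψ

/-- hereditary valuations -/
def Hereditary (V : ℕ → Set (Set Ω)) : Prop := ∀ n X Y, X ⊆ Y → Y ∈ V n → X ∈ V n

theorem forces_mono {V : ℕ → Set (Set Ω)} (hV : Hereditary V) (φ : Form) :
    ∀ {X Y : Set Ω}, X ⊆ Y → Forces V Y φ → Forces V X φ := by
  induction φ with
  | letter n => intro X Y h hY; exact hV n X Y h hY
  | neg φ ih =>
    intro X Y h hY hX
    exact hY (ih (Set.compl_subset_compl.mpr h) hX)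
  | and φ ψ ih1 ih2 =>
    intro X Y h hY
    exact ⟨ih1 h hY.1, ih2 h hY.2⟩
  | or φ ψ ih1 ih2 =>
    intro X Y h hY
    exact Or.imp (ih1 h) (ih2 h) hY
  | imp φ ψ _ ih2 =>
    intro X Y h hY Z hZ
    exact ih2 (Set.union_subset_union_left Z h) (hY Z hZ)

/-- an assignment of sets to the positions of a branch -/
structure Realizes (V : ℕ → Set (Set Ω)) (l : ℕ → Set Ω) (B : List Node) : Prop where
  forces : ∀ (k : ℕ) (a : Node), B[k]? = some a → Forces V (l k) a.fml
  root : l 0 = Set.univ
  pos : 0 < B.length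
  lt : ∀ (k : ℕ) (a : Node), B[k]? = some a → ∀ m ∈ a.inputs, m < k
  ne : ∀ (k : ℕ) (a : Node), B[k]? = some a → k ≠ 0 → a.inputs ≠ []
  plain : ∀ (k : ℕ) (a : Node), B[k]? = some a → a.partner = none → ∀ m ∈ a.inputs, l m ⊆ l k
  bd : ∀ (k : ℕ) (a : Node) (k' : ℕ), B[k]? = some a → a.partner = some k' → k' < B.length
  crit : ∀ (k : ℕ) (a : Node) (k' : ℕ), B[k]? = some a → a.partner = some k' → ∀ m ∈ a.inputs, m < k' ∧
    l m ⊆ l k ∪ l k'

theorem trace_zero {V : ℕ → Set (Set Ω)} {l : ℕ → Set Ω} {B : List Node}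
    (h : Realizes V l B) : ∀ n, n < B.length → Trace B n 0 := by
  intro n
  induction n using Nat.strong_induction_on with
  | _ n ih =>
    intro hn
    by_cases h0 : n = 0
    · subst h0; exact Relation.ReflTransGen.refl
    · have hB : B[n]? = some B[n] := List.getElem?_eq_getElem hn
      obtain ⟨m, hm⟩ := List.exists_mem_of_ne_nil _ (h.ne n _ hB h0)
      have hlt := h.lt n _ hB m hm
      exact Relation.ReflTransGen.head ⟨_, hB, hm⟩ (ih m hlt (hlt.trans hn))

theorem trace_le {V : ℕ → Set (Set Ω)} {l : ℕ → Set Ω} {B : List Node}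
    (h : Realizes V l B) {n k : ℕ} (hnk : Trace B n k) : k ≤ n := by
  induction hnk with
  | refl => exact le_rfl
  | tail _ hstep ih =>
    obtain ⟨a, ha, hm⟩ := hstep
    exact ((h.lt _ a ha _ hm).le).trans ih

/-- the labels of a pair with parity cover everything -/
theorem cover {V : ℕ → Set (Set Ω)} {l : ℕ → Set Ω} {B : List Node}
    (h : Realizes V l B) {i j : ℕ} (hi : i < B.length) (hj : j < B.length)
    (hp : Parity B i j) : l i ∪ l j = Set.univ := by
  rw [Set.eq_univ_iff_forall]
  intro w
  by_contra hw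
  rw [Set.mem_union, not_or] at hw
  have key : ∀ d k, B.length ≤ k + d → (Trace B i k ∨ Trace B j k) → w ∉ l k := by
    intro d
    induction d with
    | zero =>
      intro k hk hT
      rcases hT with hT | hT
      · have := trace_le h hT; omega
      · have := trace_le h hT; omega
    | succ d ih =>
      intro k hk hT
      have step : ∀ y, (Trace B i y ∨ Trace B j y) → (∃ a, B[y]? = some a ∧ k ∈ a.inputs) →
          w ∉ l k := by
        rintro y hyT ⟨a, hya, hk'⟩
        have hlt := h.lt y a hya k hk'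
        have hy : w ∉ l y := ih y (by omega) hyT
        cases hpar : a.partner with
        | none => exact fun hc => hy (h.plain y a hya hpar k hk' hc)
        | some y' =>
          obtain ⟨hlt', hsub⟩ := h.crit y a y' hya hpar k hk'
          have hy' : w ∉ l y' := ih y' (by omega) ((hp y a y' hya hpar).mp hyT)
          intro hc
          rcases hsub hc with h1 | h1
          · exact hy h1
          · exact hy' h1
      rcases hT with hT | hT
      · rcases Relation.ReflTransGen.cases_tail hT with heq | ⟨y, hny, hst⟩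
        · rw [heq]; exact hw.1
        · exact step y (Or.inl hny) hst
      · rcases Relation.ReflTransGen.cases_tail hT with heq | ⟨y, hny, hst⟩
        · rw [heq]; exact hw.2
        · exact step y (Or.inr hny) hst
  have h0 := key B.length 0 (by omega) (Or.inl (trace_zero h i hi))
  rw [h.root] at h0
  exact h0 (Set.mem_univ w)

theorem get_snoc {B : List Node} {a b : Node} {k : ℕ} (h : (B ++ [a])[k]? = some b) :
    (k < B.length ∧ B[k]? = some b) ∨ (k = B.length ∧ b = a) := by
  rcases lt_trichotomy k B.length with hk | hk | hk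
  · left
    rw [List.getElem?_append_left hk] at h
    exact ⟨hk, h⟩
  · right
    subst hk
    simp at h
    exact ⟨rfl, h.symm⟩
  · exfalso
    rw [List.getElem?_eq_none (by simp; omega)] at h
    exact absurd h (by simp)

theorem Realizes.snoc {V : ℕ → Set (Set Ω)} {l : ℕ → Set Ω} {B : List Node}
    (h : Realizes V l B) (a : Node) (X : Set Ω) (hX : Forces V X a.fml) (hne : a.inputs ≠ [])
    (hlt : ∀ m ∈ a.inputs, m < B.length) (hpar : a.partner = none)
    (hsub : ∀ m ∈ a.inputs, l m ⊆ X) :
    Realizes V (Function.update l B.length X) (B ++ [a]) := by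
  have hpos := h.pos
  have old : ∀ k, k < B.length → Function.update l B.length X k = l k := fun k hk =>
    Function.update_of_ne (by omega) _ _
  constructor
  · intro k b hb
    rcases get_snoc hb with ⟨hk, hb⟩ | ⟨rfl, rfl⟩
    · rw [old k hk]; exact h.forces k b hb
    · rw [Function.update_self]; exact hX
  · rw [old 0 hpos]; exact h.root
  · simp
  · intro k b hb m hm
    rcases get_snoc hb with ⟨hk, hb⟩ | ⟨rfl, rfl⟩
    · exact h.lt k b hb m hm
    · exact hlt m hm
  · intro k b hb hk0
    rcases get_snoc hb with ⟨hk, hb⟩ | ⟨rfl, rfl⟩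
    · exact h.ne k b hb hk0
    · exact hne
  · intro k b hb hbp m hm
    rcases get_snoc hb with ⟨hk, hb⟩ | ⟨rfl, rfl⟩
    · have := h.lt k b hb m hm
      rw [old k hk, old m (by omega)]; exact h.plain k b hb hbp m hm
    · rw [Function.update_self, old m (hlt m hm)]; exact hsub m hm
  · intro k b k' hb hbp
    rcases get_snoc hb with ⟨hk, hb⟩ | ⟨rfl, rfl⟩
    · have := h.bd k b k' hb hbp
      simp; omega
    · rw [hpar] at hbp; exact absurd hbp (by simp)
  · intro k b k' hb hbp m hm
    rcases get_snoc hb with ⟨hk, hb⟩ | ⟨rfl, rfl⟩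
    · have h1 := h.bd k b k' hb hbp
      have h2 := h.lt k b hb m hm
      rw [old k hk, old m (by omega), old k' h1]; exact h.crit k b k' hb hbp m hm
    · rw [hpar] at hbp; exact absurd hbp (by simp)

theorem get_snoc2 {B : List Node} {a a' b : Node} {k : ℕ} (h : (B ++ [a, a'])[k]? = some b) :
    (k < B.length ∧ B[k]? = some b) ∨ (k = B.length ∧ b = a) ∨ (k = B.length + 1 ∧ b = a') := by
  have e : B ++ [a, a'] = (B ++ [a]) ++ [a'] := by simp
  rw [e] at h
  rcases get_snoc h with ⟨hk, hb⟩ | ⟨hk, hb⟩
  · rcases get_snoc hb with ⟨hk, hb⟩ | ⟨hk, hb⟩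
    · exact Or.inl ⟨hk, hb⟩
    · exact Or.inr (Or.inl ⟨hk, hb⟩)
  · right; right
    simp at hk
    exact ⟨hk, hb⟩

theorem Realizes.pair {V : ℕ → Set (Set Ω)} {l : ℕ → Set Ω} {B : List Node}
    (h : Realizes V l B) (θ χ : Form) (i : ℕ) (X Y : Set Ω) (hX : Forces V X θ)
    (hY : Forces V Y χ) (hi : i < B.length) (hsub : l i ⊆ X ∪ Y) :
    Realizes V (Function.update (Function.update l B.length X) (B.length + 1) Y)
      (B ++ [⟨θ, [i], some (B.length + 1)⟩, ⟨χ, [i], some B.length⟩]) := by
  have hpos := h.pos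
  set l' := Function.update (Function.update l B.length X) (B.length + 1) Y with hl'
  have old : ∀ k, k < B.length → l' k = l k := fun k hk => by
    rw [hl', Function.update_of_ne (by omega), Function.update_of_ne (by omega)]
  have e1 : l' B.length = X := by
    rw [hl', Function.update_of_ne (by omega), Function.update_self]
  have e2 : l' (B.length + 1) = Y := by
    rw [hl', Function.update_self]
  constructor
  · intro k b hb
    rcases get_snoc2 hb with ⟨hk, hb⟩ | ⟨rfl, rfl⟩ | ⟨rfl, rfl⟩
    · rw [old k hk]; exact h.forces k b hb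
    · rw [e1]; exact hX
    · rw [e2]; exact hY
  · rw [old 0 hpos]; exact h.root
  · simp
  · intro k b hb m hm
    rcases get_snoc2 hb with ⟨hk, hb⟩ | ⟨rfl, rfl⟩ | ⟨rfl, rfl⟩
    · exact h.lt k b hb m hm
    · rw [List.mem_singleton] at hm; omega
    · rw [List.mem_singleton] at hm; omega
  · intro k b hb hk0
    rcases get_snoc2 hb with ⟨hk, hb⟩ | ⟨rfl, rfl⟩ | ⟨rfl, rfl⟩
    · exact h.ne k b hb hk0
    · simp
    · simp
  · intro k b hb hbp m hm
    rcases get_snoc2 hb with ⟨hk, hb⟩ | ⟨rfl, rfl⟩ | ⟨rfl, rfl⟩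
    · have := h.lt k b hb m hm
      rw [old k hk, old m (by omega)]; exact h.plain k b hb hbp m hm
    · exact absurd hbp (by simp)
    · exact absurd hbp (by simp)
  · intro k b k' hb hbp
    rcases get_snoc2 hb with ⟨hk, hb⟩ | ⟨rfl, rfl⟩ | ⟨rfl, rfl⟩
    · have := h.bd k b k' hb hbp
      simp; omega
    · simp only [Option.some.injEq] at hbp
      simp; omega
    · simp only [Option.some.injEq] at hbp
      simp; omega
  · intro k b k' hb hbp m hm
    rcases get_snoc2 hb with ⟨hk, hb⟩ | ⟨rfl, rfl⟩ | ⟨rfl, rfl⟩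
    · have h1 := h.bd k b k' hb hbp
      have h2 := h.lt k b hb m hm
      rw [old k hk, old m (by omega), old k' h1]; exact h.crit k b k' hb hbp m hm
    · simp only [Option.some.injEq] at hbp
      rw [List.mem_singleton] at hm
      subst hbp; subst hm
      rw [e1, e2, old m hi]
      exact ⟨by omega, hsub⟩
    · simp only [Option.some.injEq] at hbp
      rw [List.mem_singleton] at hm
      subst hbp; subst hm
      rw [e1, e2, old m hi, Set.union_comm]
      exact ⟨by omega, hsub⟩

theorem get_lt {B : List Node} {k : ℕ} {a : Node} (h : B[k]? = some a) : k < B.length := by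
  by_contra hc
  rw [List.getElem?_eq_none (by omega)] at h
  exact absurd h (by simp)

/-- A good branch has no realization. -/
theorem good_sound {V : ℕ → Set (Set Ω)} (hV : Hereditary V) {S : Set Form}
    (hS : ∀ φ ∈ S, Forces V ∅ φ) {B : List Node} (hg : Good S B) :
    ∀ l, Realizes V l B → False := by
  induction hg with
  | crash i j a b hi hj hab hp =>
    intro l h
    have hc := cover h (get_lt hi) (get_lt hj) hp
    have h1 := h.forces i a hi
    have h2 := h.forces j b hj
    rw [hab] at h2
    apply h2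
    refine forces_mono hV _ ?_ h1
    intro x hx
    have : x ∈ l i ∪ l j := by rw [hc]; exact Set.mem_univ x
    exact this.resolve_right hx
  | negneg i a θ hi ha hg ih =>
    intro l h
    have h1 := h.forces i a hi
    rw [ha] at h1
    have h2 : Forces V (l i) θ := by
      by_contra hc
      apply h1
      intro h3
      rw [compl_compl] at h3
      exact hc h3
    refine ih _ (h.snoc _ (l i) h2 (by simp) ?_ rfl ?_)
    · intro m hm; rw [List.mem_singleton] at hm; rw [hm]; exact get_lt hi
    · intro m hm; rw [List.mem_singleton] at hm; rw [hm]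
  | @conj B i a θ χ hi ha hg ih =>
    intro l h
    have h1 := h.forces i a hi
    rw [ha] at h1
    have hlt := get_lt hi
    have e : B ++ [⟨θ, [i], none⟩, ⟨χ, [i], none⟩] =
        (B ++ [(⟨θ, [i], none⟩ : Node)]) ++ [⟨χ, [i], none⟩] := by simp
    rw [e] at ih
    have r1 := h.snoc ⟨θ, [i], none⟩ (l i) h1.1 (by simp)
      (by intro m hm; rw [List.mem_singleton] at hm; rw [hm]; exact hlt) rfl
      (by intro m hm; rw [List.mem_singleton] at hm; rw [hm])
    refine ih _ (r1.snoc _ (l i) h1.2 (by simp) ?_ rfl ?_)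
    · intro m hm; rw [List.mem_singleton] at hm; rw [hm]; simp; omega
    · intro m hm; rw [List.mem_singleton] at hm; rw [hm, Function.update_of_ne (by omega)]
  | @negdisj B i a θ χ hi ha hg ih =>
    intro l h
    have h1 := h.forces i a hi
    rw [ha] at h1
    have hlt := get_lt hi
    have e : B ++ [⟨.neg θ, [i], none⟩, ⟨.neg χ, [i], none⟩] =
        (B ++ [(⟨.neg θ, [i], none⟩ : Node)]) ++ [⟨.neg χ, [i], none⟩] := by simp
    rw [e] at ih
    have h11 : Forces V (l i) (.neg θ) := fun hc => h1 (Or.inl hc)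
    have h12 : Forces V (l i) (.neg χ) := fun hc => h1 (Or.inr hc)
    have r1 := h.snoc ⟨.neg θ, [i], none⟩ (l i) h11 (by simp)
      (by intro m hm; rw [List.mem_singleton] at hm; rw [hm]; exact hlt) rfl
      (by intro m hm; rw [List.mem_singleton] at hm; rw [hm])
    refine ih _ (r1.snoc _ (l i) h12 (by simp) ?_ rfl ?_)
    · intro m hm; rw [List.mem_singleton] at hm; rw [hm]; simp; omega
    · intro m hm; rw [List.mem_singleton] at hm; rw [hm, Function.update_of_ne (by omega)]
  | disj i a θ χ hi ha hg1 hg2 ih1 ih2 =>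
    intro l h
    have h1 := h.forces i a hi
    rw [ha] at h1
    rcases h1 with h1 | h1
    · refine ih1 _ (h.snoc _ (l i) h1 (by simp) ?_ rfl ?_)
      · intro m hm; rw [List.mem_singleton] at hm; rw [hm]; exact get_lt hi
      · intro m hm; rw [List.mem_singleton] at hm; rw [hm]
    · refine ih2 _ (h.snoc _ (l i) h1 (by simp) ?_ rfl ?_)
      · intro m hm; rw [List.mem_singleton] at hm; rw [hm]; exact get_lt hi
      · intro m hm; rw [List.mem_singleton] at hm; rw [hm]
  | negconj i a θ χ hi ha hg1 hg2 ih1 ih2 =>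
    intro l h
    have h1 := h.forces i a hi
    rw [ha] at h1
    have h2 : Forces V (l i) (.neg θ) ∨ Forces V (l i) (.neg χ) := by
      by_contra hc
      rw [not_or] at hc
      apply h1
      exact ⟨not_not.mp hc.1, not_not.mp hc.2⟩
    rcases h2 with h1 | h1
    · refine ih1 _ (h.snoc _ (l i) h1 (by simp) ?_ rfl ?_)
      · intro m hm; rw [List.mem_singleton] at hm; rw [hm]; exact get_lt hi
      · intro m hm; rw [List.mem_singleton] at hm; rw [hm]
    · refine ih2 _ (h.snoc _ (l i) h1 (by simp) ?_ rfl ?_)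
      · intro m hm; rw [List.mem_singleton] at hm; rw [hm]; exact get_lt hi
      · intro m hm; rw [List.mem_singleton] at hm; rw [hm]
  | @counter B i a θ χ hi ha hg ih =>
    intro l h
    have h1 := h.forces i a hi
    rw [ha] at h1
    have h2 : ∃ Z, Forces V Z θ ∧ ¬ Forces V ((l i)ᶜ ∪ Z) χ := by
      by_contra hc
      apply h1
      intro Z hZ
      by_contra hcc
      exact hc ⟨Z, hZ, hcc⟩
    obtain ⟨Z, hZ, hZ'⟩ := h2
    refine ih _ (h.pair θ (.neg χ) i Z (l i ∩ Zᶜ) hZ ?_ (get_lt hi) ?_)
    · intro hc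
      apply hZ'
      rw [Set.compl_inter, compl_compl] at hc
      exact hc
    · intro x hx
      by_cases hxZ : x ∈ Z
      · exact Or.inl hxZ
      · exact Or.inr ⟨hx, hxZ⟩
  | mp i j a b χ hi hj hb hg ih =>
    intro l h
    have h1 := h.forces i a hi
    have h2 := h.forces j b hj
    rw [hb] at h2
    have h3 : Forces V (l j ∪ l i) χ := h2 _ h1
    refine ih _ (h.snoc _ (l j ∪ l i) h3 (by simp) ?_ rfl ?_)
    · intro m hm
      simp only [List.mem_cons, List.not_mem_nil, or_false] at hm
      rcases hm with rfl | rfl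
      · exact get_lt hi
      · exact get_lt hj
    · intro m hm
      simp only [List.mem_cons, List.not_mem_nil, or_false] at hm
      rcases hm with rfl | rfl
      · exact Set.subset_union_right
      · exact Set.subset_union_left
  | recursive i a χ hi hSa hg ih =>
    intro l h
    have h1 := h.forces i a hi
    have h3 : Forces V (l i) χ := by
      have := hS _ hSa (l i) h1
      rwa [Set.empty_union] at this
    refine ih _ (h.snoc _ (l i) h3 (by simp) ?_ rfl ?_)
    · intro m hm; rw [List.mem_singleton] at hm; rw [hm]; exact get_lt hi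
    · intro m hm; rw [List.mem_singleton] at hm; rw [hm]

/-- Acceptable formulas are true at the empty set. -/
theorem acceptable_sound {V : ℕ → Set (Set Ω)} (hV : Hereditary V) {φ : Form}
    (h : φ ∈ Acceptable) : Forces V ∅ φ := by
  refine h {ψ | Forces V ∅ ψ} ?_
  intro ψ hψ
  by_contra hc
  refine good_sound hV (S := {ψ | Forces V ∅ ψ}) (fun φ h => h) hψ (fun _ => Set.univ) ?_
  have hget : ∀ k (a : Node), ([⟨.neg ψ, [], none⟩] : List Node)[k]? = some a →
      k = 0 ∧ a = ⟨.neg ψ, [], none⟩ := by
    intro k a h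
    have : ([⟨.neg ψ, [], none⟩] : List Node) = [] ++ [⟨.neg ψ, [], none⟩] := rfl
    rw [this] at h
    rcases get_snoc h with ⟨h1, _⟩ | ⟨h1, h2⟩
    · exact absurd h1 (by simp)
    · exact ⟨h1, h2⟩
  constructor
  · intro k a ha
    obtain ⟨rfl, rfl⟩ := hget k a ha
    intro hf
    rw [Set.compl_univ] at hf
    exact hc hf
  · rfl
  · simp
  · intro k a ha m hm
    obtain ⟨rfl, rfl⟩ := hget k a ha
    exact absurd hm (by simp)
  · intro k a ha hk
    exact absurd (hget k a ha).1 hk
  · intro k a ha _ m hm
    obtain ⟨rfl, rfl⟩ := hget k a ha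
    exact absurd hm (by simp)
  · intro k a k' ha hk
    obtain ⟨rfl, rfl⟩ := hget k a ha
    exact absurd hk (by simp)
  · intro k a k' ha hk
    obtain ⟨rfl, rfl⟩ := hget k a ha
    exact absurd hk (by simp)

theorem forces_iff {V : ℕ → Set (Set Ω)} (w : Ω) (φ : Form)
    (h : ∀ n, Occurs n φ → V n = {X | w ∉ X}) : ∀ X, Forces V X φ ↔ w ∉ X := by
  induction φ with
  | letter n =>
    intro X
    change X ∈ V n ↔ _
    rw [h n rfl]
    exact Iff.rfl
  | neg φ ih =>
    intro X
    change ¬ Forces V Xᶜ φ ↔ _
    rw [ih h Xᶜ]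
    simp
  | and φ ψ ih1 ih2 =>
    intro X
    change Forces V X φ ∧ Forces V X ψ ↔ _
    rw [ih1 (fun n hn => h n (Or.inl hn)) X, ih2 (fun n hn => h n (Or.inr hn)) X, and_self]
  | or φ ψ ih1 ih2 =>
    intro X
    change Forces V X φ ∨ Forces V X ψ ↔ _
    rw [ih1 (fun n hn => h n (Or.inl hn)) X, ih2 (fun n hn => h n (Or.inr hn)) X, or_self]
  | imp φ ψ ih1 ih2 =>
    intro X
    change (∀ Y, Forces V Y φ → Forces V (X ∪ Y) ψ) ↔ _
    constructor
    · intro hf hX
      have h1 := hf ∅ ((ih1 (fun n hn => h n (Or.inl hn)) ∅).mpr (by simp))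
      have h2 := (ih2 (fun n hn => h n (Or.inr hn)) (X ∪ ∅)).mp h1
      exact h2 (Or.inl hX)
    · intro hX Y hY
      have h1 := (ih1 (fun n hn => h n (Or.inl hn)) Y).mp hY
      rw [ih2 (fun n hn => h n (Or.inr hn))]
      rintro (h2 | h2)
      · exact hX h2
      · exact h1 h2

/-- The letter-sharing property of the set of acceptable formulas. -/
theorem letter_sharing (φ ψ : Form) (h : .imp φ ψ ∈ Acceptable) :
    ∃ n, Occurs n φ ∧ Occurs n ψ := by
  classical
  by_contra hc
  push Not at hc
  let V : ℕ → Set (Set Bool) := fun n => if Occurs n φ then {X | true ∉ X} else {X | false ∉ X}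
  have hV : Hereditary V := by
    intro n X Y hXY hY
    change X ∈ (if Occurs n φ then {X : Set Bool | true ∉ X} else {X | false ∉ X})
    change Y ∈ (if Occurs n φ then {X : Set Bool | true ∉ X} else {X | false ∉ X}) at hY
    split_ifs with hn
    · rw [if_pos hn] at hY
      exact fun h => hY (hXY h)
    · rw [if_neg hn] at hY
      exact fun h => hY (hXY h)
  have h1 := acceptable_sound hV h
  have h2 : Forces V {false} φ :=
    (forces_iff true φ (fun n hn => if_pos hn) {false}).mpr (by simp)
  have h3 := (forces_iff false ψ (fun n hn => if_neg (fun h => hc n h hn)) _).mp (h1 _ h2)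
  exact h3 (by simp)

end Q220.TruthTree
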