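import Pool.Agent.Q220.TruthTree.Label

/-!
# Closure properties of the set of acceptable formulas
-/

set_option autoImplicit false

namespace Q220.TruthTree

/-- label of the first node of the first critical pair -/
def LP : Set (ℕ × Bool) := insert (0, false) ∅

/-- label of the second node of the first critical pair -/
def LN : Set (ℕ × Bool) := insert (0, true) ∅

theorem acc_imp {a b : Form}
    (h : G Acceptable (insert (.neg b, LN) (insert (a, LP) {(.neg (.imp a b), ∅)}))) :
    .imp a b ∈ Acceptable := by
  apply acc_of_G
  refine .counter a b ∅ 0 (Set.mem_singleton _) ?_ h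
  intro x hx b'
  rw [Set.mem_singleton_iff] at hx
  subst hx
  exact Set.notMem_empty _

theorem crash2 {S : Set Form} {Γ : Set (Form × Set (ℕ × Bool))} (ζ : Form)
    (h1 : (ζ, LP) ∈ Γ) (h2 : (Form.neg ζ, LN) ∈ Γ) : G S Γ := by
  refine .crash ζ LP LN h1 h2 ?_
  intro k
  simp [LP, LN]

theorem crash2' {S : Set Form} {Γ : Set (Form × Set (ℕ × Bool))} (ζ : Form)
    (h1 : (ζ, LN) ∈ Γ) (h2 : (Form.neg ζ, LP) ∈ Γ) : G S Γ := by
  refine .crash ζ LN LP h1 h2 ?_
  intro k
  simp [LP, LN]

theorem acc_self (a : Form) : .imp a a ∈ Acceptable :=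
  acc_imp (crash2 a (by simp) (by simp))

theorem acc_negneg (a : Form) : .imp (.neg (.neg a)) a ∈ Acceptable :=
  acc_imp (crash2' (.neg a) (by simp) (by simp))

theorem acc_and_left (a b : Form) : .imp (.and a b) a ∈ Acceptable := by
  apply acc_imp
  refine .conj a b LP (by simp) ?_
  exact crash2 a (by simp) (by simp)

theorem acc_and_right (a b : Form) : .imp (.and a b) b ∈ Acceptable := by
  apply acc_imp
  refine .conj a b LP (by simp) ?_
  exact crash2 b (by simp) (by simp)

theorem acc_or_left (a b : Form) : .imp a (.or a b) ∈ Acceptable := by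
  apply acc_imp
  refine .negdisj a b LN (by simp) ?_
  exact crash2 a (by simp) (by simp)

theorem acc_or_right (a b : Form) : .imp b (.or a b) ∈ Acceptable := by
  apply acc_imp
  refine .negdisj a b LN (by simp) ?_
  exact crash2 b (by simp) (by simp)

theorem acc_demorgan (a b : Form) :
    .imp (.neg (.and a b)) (.or (.neg a) (.neg b)) ∈ Acceptable := by
  apply acc_imp
  refine .negdisj (.neg a) (.neg b) LN (by simp) ?_
  refine .negconj a b LP (by simp) ?_ ?_
  · exact crash2 (.neg a) (by simp) (by simp)
  · exact crash2 (.neg b) (by simp) (by simp)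

theorem acc_contra {a b : Form} (h : .imp a b ∈ Acceptable) :
    .imp (.neg b) (.neg a) ∈ Acceptable := by
  apply acc_imp
  refine .negneg a LN (by simp) ?_
  refine .recursive a b LN (by simp) h ?_
  exact crash2' b (by simp) (by simp)

theorem acc_trans {a b c : Form} (h : .imp a b ∈ Acceptable) (h' : .imp b c ∈ Acceptable) :
    .imp a c ∈ Acceptable := by
  apply acc_imp
  refine .recursive a b LP (by simp) h ?_
  refine .recursive b c LP (by simp) h' ?_
  exact crash2 c (by simp) (by simp)

theorem acc_meet {a b c : Form} (h : .imp a b ∈ Acceptable) (h' : .imp a c ∈ Acceptable) :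
    .imp a (.and b c) ∈ Acceptable := by
  apply acc_imp
  refine .recursive a b LP (by simp) h ?_
  refine .recursive a c LP (by simp) h' ?_
  refine .negconj b c LN (by simp) ?_ ?_
  · exact crash2 b (by simp) (by simp)
  · exact crash2 c (by simp) (by simp)

theorem acc_join {a b c : Form} (h : .imp a c ∈ Acceptable) (h' : .imp b c ∈ Acceptable) :
    .imp (.or a b) c ∈ Acceptable := by
  apply acc_imp
  refine .disj a b LP (by simp) ?_ ?_
  · refine .recursive a c LP (by simp) h ?_
    exact crash2 c (by simp) (by simp)
  · refine .recursive b c LP (by simp) h' ?_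
    exact crash2 c (by simp) (by simp)

theorem acc_imp_mono {a b a' b' : Form} (h : .imp a' a ∈ Acceptable)
    (h' : .imp b b' ∈ Acceptable) : .imp (.imp a b) (.imp a' b') ∈ Acceptable := by
  apply acc_imp
  refine .counter a' b' LN 1 (by simp) ?_ ?_
  · intro x hx c
    rcases hx with rfl | rfl | rfl
    · simp [LN]
    · simp [LP]
    · simp
  refine .recursive a' a (insert (1, false) LN) (by simp) h ?_
  refine .mp a b (insert (1, false) LN) LP (by simp) (by simp) ?_
  refine .recursive b b' (insert (1, false) LN ∪ LP) (by simp) h' ?_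
  refine .crash b' (insert (1, false) LN ∪ LP) (insert (1, true) LN) (by simp) (by simp) ?_
  intro k
  simp [LP, LN]
  tauto

theorem acc_and_mono {a b a' b' : Form} (h : .imp a a' ∈ Acceptable)
    (h' : .imp b b' ∈ Acceptable) : .imp (.and a b) (.and a' b') ∈ Acceptable :=
  acc_meet (acc_trans (acc_and_left a b) h) (acc_trans (acc_and_right a b) h')

theorem acc_or_mono {a b a' b' : Form} (h : .imp a a' ∈ Acceptable)
    (h' : .imp b b' ∈ Acceptable) : .imp (.or a b) (.or a' b') ∈ Acceptable :=
  acc_join (acc_trans h (acc_or_left a' b')) (acc_trans h' (acc_or_right a' b'))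

/-! ### Formulas with a top and a bottom element -/

/-- formulas with a top and a bottom element -/
inductive V : Type
  | top : V
  | bot : V
  | form (φ : Form) : V

/-- negation -/
def V.neg : V → V
  | .top => .bot
  | .bot => .top
  | .form a => .form (.neg a)

/-- conjunction -/
def V.and : V → V → V
  | .top, y => y
  | .bot, _ => .bot
  | .form a, .top => .form a
  | .form _, .bot => .bot
  | .form a, .form b => .form (.and a b)

/-- disjunction -/
def V.or : V → V → V
  | .top, _ => .top
  | .bot, y => y
  | .form _, .top => .top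
  | .form a, .bot => .form a
  | .form a, .form b => .form (.or a b)

/-- implication -/
def V.imp : V → V → V
  | .bot, _ => .top
  | _, .top => .top
  | .top, .bot => .bot
  | .top, .form _ => .bot
  | .form _, .bot => .bot
  | .form a, .form b => .form (.imp a b)

open Classical in
/-- conjunction, but the conjunction of a formula with itself is the formula -/
noncomputable def V.meet (x y : V) : V := if x = y then x else V.and x y

/-- the order given by the acceptable implications -/
def V.le : V → V → Prop
  | .bot, _ => True
  | _, .top => True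
  | .top, .bot => False
  | .top, .form _ => False
  | .form _, .bot => False
  | .form a, .form b => .imp a b ∈ Acceptable

theorem V.le_refl (x : V) : V.le x x := by
  cases x with
  | top => trivial
  | bot => trivial
  | form a => exact acc_self a

theorem V.bot_le (x : V) : V.le .bot x := by cases x <;> trivial

theorem V.le_top (x : V) : V.le x .top := by cases x <;> trivial

theorem V.le_trans {x y z : V} (h : V.le x y) (h' : V.le y z) : V.le x z := by
  rcases x with _ | _ | a <;> rcases y with _ | _ | b <;> rcases z with _ | _ | c <;>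
    first
    | trivial
    | exact h.elim
    | exact h'.elim
    | exact acc_trans h h'

theorem V.neg_le {x y : V} (h : V.le x y) : V.le (V.neg y) (V.neg x) := by
  rcases x with _ | _ | a <;> rcases y with _ | _ | b <;>
    first
    | trivial
    | exact h.elim
    | exact acc_contra h

theorem V.negneg_le (x : V) : V.le (V.neg (V.neg x)) x := by
  rcases x with _ | _ | a <;>
    first
    | trivial
    | exact acc_negneg a

theorem V.and_le_left (x y : V) : V.le (V.and x y) x := by
  rcases x with _ | _ | a <;> rcases y with _ | _ | b <;>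
    first
    | trivial
    | exact acc_self _
    | exact acc_and_left _ _

theorem V.and_le_right (x y : V) : V.le (V.and x y) y := by
  rcases x with _ | _ | a <;> rcases y with _ | _ | b <;>
    first
    | trivial
    | exact acc_self _
    | exact acc_and_right _ _

theorem V.le_and {x y z : V} (h : V.le x y) (h' : V.le x z) : V.le x (V.and y z) := by
  rcases x with _ | _ | a <;> rcases y with _ | _ | b <;> rcases z with _ | _ | c <;>
    first
    | trivial
    | exact h
    | exact h'
    | exact acc_meet h h'

theorem V.meet_le_left (x y : V) : V.le (V.meet x y) x := by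
  unfold V.meet
  split_ifs with h
  · exact V.le_refl x
  · exact V.and_le_left x y

theorem V.meet_le_right (x y : V) : V.le (V.meet x y) y := by
  unfold V.meet
  split_ifs with h
  · rw [h]; exact V.le_refl y
  · exact V.and_le_right x y

theorem V.le_meet {x y z : V} (h : V.le x y) (h' : V.le x z) : V.le x (V.meet y z) := by
  unfold V.meet
  split_ifs with h1
  · exact h
  · exact V.le_and h h'

theorem V.le_or_left (x y : V) : V.le x (V.or x y) := by
  rcases x with _ | _ | a <;> rcases y with _ | _ | b <;>
    first
    | trivial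
    | exact acc_self _
    | exact acc_or_left _ _

theorem V.le_or_right (x y : V) : V.le y (V.or x y) := by
  rcases x with _ | _ | a <;> rcases y with _ | _ | b <;>
    first
    | trivial
    | exact acc_self _
    | exact acc_or_right _ _

theorem V.or_le {x y z : V} (h : V.le x z) (h' : V.le y z) : V.le (V.or x y) z := by
  rcases x with _ | _ | a <;> rcases y with _ | _ | b <;> rcases z with _ | _ | c <;>
    first
    | trivial
    | exact h
    | exact h'
    | exact acc_join h h'

theorem V.neg_and_le (x y : V) : V.le (V.neg (V.and x y)) (V.or (V.neg x) (V.neg y)) := by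
  rcases x with _ | _ | a <;> rcases y with _ | _ | b <;>
    first
    | trivial
    | exact acc_self _
    | exact acc_demorgan _ _

theorem V.imp_mono {x y x' y' : V} (h : V.le x' x) (h' : V.le y y') :
    V.le (V.imp x y) (V.imp x' y') := by
  rcases x with _ | _ | a <;> rcases y with _ | _ | b <;> rcases x' with _ | _ | a' <;>
    rcases y' with _ | _ | b' <;>
    first
    | trivial
    | exact h.elim
    | exact h'.elim
    | exact acc_imp_mono h h'

/-- The pair of translations of a formula: letters in `P` become `(⊤, ⊥)`. -/
noncomputable def tr (P : ℕ → Prop) : Form → V × V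
  | .letter n => open Classical in
      if P n then (.top, .bot) else (.form (.letter n), .form (.letter n))
  | .neg φ => (V.neg (tr P φ).2, V.neg (tr P φ).1)
  | .and φ ψ => (V.and (tr P φ).1 (tr P ψ).1, V.and (tr P φ).2 (tr P ψ).2)
  | .or φ ψ => (V.or (tr P φ).1 (tr P ψ).1, V.or (tr P φ).2 (tr P ψ).2)
  | .imp φ ψ => (V.meet (V.imp (tr P φ).1 (tr P ψ).1) (V.imp (tr P φ).2 (tr P ψ).2),
      V.imp (tr P φ).1 (tr P ψ).2)

theorem tr_order (P : ℕ → Prop) (φ : Form) : V.le (tr P φ).2 (tr P φ).1 := by
  induction φ with
  | letter n =>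
    unfold tr
    split_ifs with h
    · trivial
    · exact acc_self _
  | neg φ ih => exact V.neg_le ih
  | and φ ψ ih1 ih2 =>
    exact V.le_and (V.le_trans (V.and_le_left _ _) ih1) (V.le_trans (V.and_le_right _ _) ih2)
  | or φ ψ ih1 ih2 =>
    exact V.or_le (V.le_trans ih1 (V.le_or_left _ _)) (V.le_trans ih2 (V.le_or_right _ _))
  | imp φ ψ ih1 ih2 =>
    exact V.le_meet (V.imp_mono (V.le_refl _) ih2) (V.imp_mono ih1 (V.le_refl _))

theorem tr_diag (P : ℕ → Prop) (φ : Form) (h : ∀ n, Occurs n φ → ¬ P n) :
    tr P φ = (.form φ, .form φ) := by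
  induction φ with
  | letter n => simp [tr, h n rfl]
  | neg φ ih => simp [tr, ih h, V.neg]
  | and φ ψ ih1 ih2 =>
    simp [tr, ih1 (fun n hn => h n (Or.inl hn)), ih2 (fun n hn => h n (Or.inr hn)), V.and]
  | or φ ψ ih1 ih2 =>
    simp [tr, ih1 (fun n hn => h n (Or.inl hn)), ih2 (fun n hn => h n (Or.inr hn)), V.or]
  | imp φ ψ ih1 ih2 =>
    simp [tr, ih1 (fun n hn => h n (Or.inl hn)), ih2 (fun n hn => h n (Or.inr hn)), V.imp, V.meet]

theorem tr_all (P : ℕ → Prop) (φ : Form) (h : ∀ n, Occurs n φ → P n) :
    tr P φ = (.top, .bot) := by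
  induction φ with
  | letter n => simp [tr, h n rfl]
  | neg φ ih => simp [tr, ih h, V.neg]
  | and φ ψ ih1 ih2 =>
    simp [tr, ih1 (fun n hn => h n (Or.inl hn)), ih2 (fun n hn => h n (Or.inr hn)), V.and]
  | or φ ψ ih1 ih2 =>
    simp [tr, ih1 (fun n hn => h n (Or.inl hn)), ih2 (fun n hn => h n (Or.inr hn)), V.or]
  | imp φ ψ ih1 ih2 =>
    simp [tr, ih1 (fun n hn => h n (Or.inl hn)), ih2 (fun n hn => h n (Or.inr hn)), V.imp, V.meet]

end Q220.TruthTree
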