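import Pool.Agent.Q220.TruthTree.Basic

/-!
# Labelled version of the truth-tree calculus
-/

set_option autoImplicit false

namespace Q220.TruthTree

/-- the name of the critical node at position `c` with partner at `c'` -/
def pid (c c' : ℕ) : ℕ × Bool := (min c c', decide (c' < c))

/-- well-formed branches -/
structure WF (B : List Node) : Prop where
  pos : 0 < B.length
  lt : ∀ (k : ℕ) (a : Node), B[k]? = some a → ∀ m ∈ a.inputs, m < k
  ne : ∀ (k : ℕ) (a : Node), B[k]? = some a → k ≠ 0 → a.inputs ≠ []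
  par : ∀ (k : ℕ) (a : Node) (k' : ℕ), B[k]? = some a → a.partner = some k' →
    k ≠ k' ∧ ∃ a', B[k']? = some a' ∧ a'.partner = some k
  crlt : ∀ (k : ℕ) (a : Node) (k' : ℕ), B[k]? = some a → a.partner = some k' →
    ∀ m ∈ a.inputs, m < k'

/-- names of the critical nodes in the trace -/
def lab (B : List Node) (k : ℕ) : Set (ℕ × Bool) :=
  {x | ∃ c a c', Trace B k c ∧ B[c]? = some a ∧ a.partner = some c' ∧ x = pid c c'}

theorem WF.trace_le {B : List Node} (h : WF B) {n k : ℕ} (hnk : Trace B n k) : k ≤ n := by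
  induction hnk with
  | refl => exact le_rfl
  | tail _ hstep ih =>
    obtain ⟨a, ha, hm⟩ := hstep
    exact ((h.lt _ a ha _ hm).le).trans ih

theorem WF.trace_zero {B : List Node} (h : WF B) : ∀ n, n < B.length → Trace B n 0 := by
  intro n
  induction n using Nat.strong_induction_on with
  | _ n ih =>
    intro hn
    by_cases h0 : n = 0
    · subst h0; exact Relation.ReflTransGen.refl
    · have hB : B[n]? = some B[n] := List.getElem?_eq_getElem hn
      obtain ⟨m, hm⟩ := List.exists_mem_of_ne_nil _ (h.ne n _ hB h0)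
      have hlt := h.lt n _ hB m hm
      exact Relation.ReflTransGen.head ⟨_, hB, hm⟩ (ih m hlt (hlt.trans hn))

/-- A property which passes from an input to the node or to its partner and which fails at a pair
with parity fails on the whole trace of the pair. -/
theorem WF.descend {B : List Node} (h : WF B) {i j : ℕ} (hi : i < B.length) (hj : j < B.length)
    (hp : Parity B i j) (Q : ℕ → Prop) (hQi : ¬ Q i) (hQj : ¬ Q j)
    (hstep : ∀ (y : ℕ) (a : Node), B[y]? = some a → ∀ x ∈ a.inputs, Q x →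
      Q y ∨ ∃ y', a.partner = some y' ∧ Q y') :
    ∀ x, (Trace B i x ∨ Trace B j x) → ¬ Q x := by
  have key : ∀ d k, B.length ≤ k + d → (Trace B i k ∨ Trace B j k) → ¬ Q k := by
    intro d
    induction d with
    | zero =>
      intro k hk hT
      rcases hT with hT | hT
      · have := h.trace_le hT; omega
      · have := h.trace_le hT; omega
    | succ d ih =>
      intro k hk hT
      have step : ∀ y, (Trace B i y ∨ Trace B j y) → (∃ a, B[y]? = some a ∧ k ∈ a.inputs) →
          ¬ Q k := by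
        rintro y hyT ⟨a, hya, hk'⟩ hQ
        have hlt := h.lt y a hya k hk'
        rcases hstep y a hya k hk' hQ with hy | ⟨y', hpar, hy'⟩
        · exact ih y (by omega) hyT hy
        · have hlt' := h.crlt y a y' hya hpar k hk'
          exact ih y' (by omega) ((hp y a y' hya hpar).mp hyT) hy'
      rcases hT with hT | hT
      · rcases Relation.ReflTransGen.cases_tail hT with heq | ⟨y, hny, hst⟩
        · rw [heq]; exact hQi
        · exact step y (Or.inl hny) hst
      · rcases Relation.ReflTransGen.cases_tail hT with heq | ⟨y, hny, hst⟩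
        · rw [heq]; exact hQj
        · exact step y (Or.inr hny) hst
  intro x hx
  exact key B.length x (by omega) hx

theorem get_append {B L : List Node} {k : ℕ} (hk : k < B.length) : (B ++ L)[k]? = B[k]? :=
  List.getElem?_append_left hk

theorem WF.trace_append {B : List Node} (h : WF B) (L : List Node) {k x : ℕ}
    (hk : k < B.length) : Trace (B ++ L) k x ↔ Trace B k x := by
  constructor
  · intro ht
    have : x < B.length ∧ Trace B k x := by
      induction ht with
      | refl => exact ⟨hk, Relation.ReflTransGen.refl⟩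
      | @tail y z _ hst ih =>
        obtain ⟨hy, hty⟩ := ih
        obtain ⟨a, ha, hz⟩ := hst
        rw [get_append hy] at ha
        exact ⟨(h.lt y a ha z hz).trans hy, hty.tail ⟨a, ha, hz⟩⟩
    exact this.2
  · intro ht
    induction ht with
    | refl => exact Relation.ReflTransGen.refl
    | @tail y z hty hst ih =>
      obtain ⟨a, ha, hz⟩ := hst
      refine ih.tail ⟨a, ?_, hz⟩
      rw [get_append (get_lt ha)]
      exact ha

theorem WF.lab_append {B : List Node} (h : WF B) (L : List Node) {k : ℕ} (hk : k < B.length) :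
    lab (B ++ L) k = lab B k := by
  ext x
  constructor
  · rintro ⟨c, a, c', ht, ha, hc, hx⟩
    rw [h.trace_append L hk] at ht
    have := h.trace_le ht
    rw [get_append (by omega)] at ha
    exact ⟨c, a, c', ht, ha, hc, hx⟩
  · rintro ⟨c, a, c', ht, ha, hc, hx⟩
    refine ⟨c, a, c', (h.trace_append L hk).mpr ht, ?_, hc, hx⟩
    rw [get_append (get_lt ha)]
    exact ha

/-- labels are computed from the labels of the inputs -/
theorem mem_lab_iff {B : List Node} {k : ℕ} {a : Node} (ha : B[k]? = some a) (x : ℕ × Bool) :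
    x ∈ lab B k ↔ (∃ c', a.partner = some c' ∧ x = pid k c') ∨ ∃ m ∈ a.inputs, x ∈ lab B m := by
  constructor
  · rintro ⟨c, b, c', ht, hb, hc, hx⟩
    rcases Relation.ReflTransGen.cases_head ht with heq | ⟨y, ⟨b', hb', hy⟩, hyc⟩
    · subst heq
      rw [ha] at hb
      cases hb
      exact Or.inl ⟨c', hc, hx⟩
    · rw [ha] at hb'
      cases hb'
      exact Or.inr ⟨y, hy, c, b, c', hyc, hb, hc, hx⟩
  · rintro (⟨c', hc, hx⟩ | ⟨m, hm, c, b, c', ht, hb, hc, hx⟩)
    · exact ⟨k, a, c', Relation.ReflTransGen.refl, ha, hc, hx⟩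
    · exact ⟨c, b, c', Relation.ReflTransGen.head ⟨a, ha, hm⟩ ht, hb, hc, hx⟩

theorem WF.snoc {B : List Node} (h : WF B) (a : Node) (hne : a.inputs ≠ [])
    (hlt : ∀ m ∈ a.inputs, m < B.length) (hpar : a.partner = none) : WF (B ++ [a]) := by
  constructor
  · simp
  · intro k b hb m hm
    rcases get_snoc hb with ⟨hk, hb⟩ | ⟨rfl, rfl⟩
    · exact h.lt k b hb m hm
    · exact hlt m hm
  · intro k b hb hk0
    rcases get_snoc hb with ⟨hk, hb⟩ | ⟨rfl, rfl⟩
    · exact h.ne k b hb hk0
    · exact hne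
  · intro k b k' hb hbp
    rcases get_snoc hb with ⟨hk, hb⟩ | ⟨rfl, rfl⟩
    · obtain ⟨h1, a', ha', hp'⟩ := h.par k b k' hb hbp
      refine ⟨h1, a', ?_, hp'⟩
      rw [get_append (get_lt ha')]
      exact ha'
    · rw [hpar] at hbp; exact absurd hbp (by simp)
  · intro k b k' hb hbp m hm
    rcases get_snoc hb with ⟨hk, hb⟩ | ⟨rfl, rfl⟩
    · exact h.crlt k b k' hb hbp m hm
    · rw [hpar] at hbp; exact absurd hbp (by simp)

theorem WF.pair {B : List Node} (h : WF B) (θ χ : Form) (i : ℕ) (hi : i < B.length) :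
    WF (B ++ [⟨θ, [i], some (B.length + 1)⟩, ⟨χ, [i], some B.length⟩]) := by
  constructor
  · simp
  · intro k b hb m hm
    rcases get_snoc2 hb with ⟨hk, hb⟩ | ⟨rfl, rfl⟩ | ⟨rfl, rfl⟩
    · exact h.lt k b hb m hm
    · rw [List.mem_singleton] at hm; omega
    · rw [List.mem_singleton] at hm; omega
  · intro k b hb hk0
    rcases get_snoc2 hb with ⟨hk, hb⟩ | ⟨rfl, rfl⟩ | ⟨rfl, rfl⟩
    · exact h.ne k b hb hk0
    · simp
    · simp
  · intro k b k' hb hbp
    rcases get_snoc2 hb with ⟨hk, hb⟩ | ⟨rfl, rfl⟩ | ⟨rfl, rfl⟩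
    · obtain ⟨h1, a', ha', hp'⟩ := h.par k b k' hb hbp
      refine ⟨h1, a', ?_, hp'⟩
      rw [get_append (get_lt ha')]
      exact ha'
    · simp only [Option.some.injEq] at hbp
      subst hbp
      exact ⟨by omega, ⟨χ, [i], some B.length⟩, by simp, rfl⟩
    · simp only [Option.some.injEq] at hbp
      subst hbp
      exact ⟨by omega, ⟨θ, [i], some (B.length + 1)⟩, by simp, rfl⟩
  · intro k b k' hb hbp m hm
    rcases get_snoc2 hb with ⟨hk, hb⟩ | ⟨rfl, rfl⟩ | ⟨rfl, rfl⟩
    · exact h.crlt k b k' hb hbp m hm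
    · simp only [Option.some.injEq] at hbp
      rw [List.mem_singleton] at hm; omega
    · simp only [Option.some.injEq] at hbp
      rw [List.mem_singleton] at hm; omega

theorem WF.root (φ : Form) : WF [⟨φ, [], none⟩] := by
  have hget : ∀ k (a : Node), ([⟨φ, [], none⟩] : List Node)[k]? = some a →
      k = 0 ∧ a = ⟨φ, [], none⟩ := by
    intro k a h
    have : ([⟨φ, [], none⟩] : List Node) = [] ++ [⟨φ, [], none⟩] := rfl
    rw [this] at h
    rcases get_snoc h with ⟨h1, _⟩ | ⟨h1, h2⟩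
    · exact absurd h1 (by simp)
    · exact ⟨h1, h2⟩
  constructor
  · simp
  · intro k a ha m hm
    obtain ⟨rfl, rfl⟩ := hget k a ha
    exact absurd hm (by simp)
  · intro k a ha hk
    exact absurd (hget k a ha).1 hk
  · intro k a k' ha hk
    obtain ⟨rfl, rfl⟩ := hget k a ha
    exact absurd hk (by simp)
  · intro k a k' ha hk
    obtain ⟨rfl, rfl⟩ := hget k a ha
    exact absurd hk (by simp)

theorem WF.lab_snoc {B : List Node} (h : WF B) (φ : Form) (i : ℕ) (hi : i < B.length) :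
    lab (B ++ [⟨φ, [i], none⟩]) B.length = lab B i := by
  ext x
  rw [mem_lab_iff (a := ⟨φ, [i], none⟩) (by simp)]
  simp [h.lab_append _ hi]

theorem WF.lab_snoc2 {B : List Node} (h : WF B) (φ : Form) (i j : ℕ) (hi : i < B.length)
    (hj : j < B.length) :
    lab (B ++ [⟨φ, [i, j], none⟩]) B.length = lab B i ∪ lab B j := by
  ext x
  rw [mem_lab_iff (a := ⟨φ, [i, j], none⟩) (by simp)]
  simp [h.lab_append _ hi, h.lab_append _ hj]

theorem WF.lab_pair1 {B : List Node} (h : WF B) (θ χ : Form) (i : ℕ) (hi : i < B.length) :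
    lab (B ++ [⟨θ, [i], some (B.length + 1)⟩, ⟨χ, [i], some B.length⟩]) B.length =
      insert (B.length, false) (lab B i) := by
  ext x
  rw [mem_lab_iff (a := ⟨θ, [i], some (B.length + 1)⟩) (by simp)]
  simp [h.lab_append _ hi, pid]

theorem WF.lab_pair2 {B : List Node} (h : WF B) (θ χ : Form) (i : ℕ) (hi : i < B.length) :
    lab (B ++ [⟨θ, [i], some (B.length + 1)⟩, ⟨χ, [i], some B.length⟩]) (B.length + 1) =
      insert (B.length, true) (lab B i) := by
  ext x
  rw [mem_lab_iff (a := ⟨χ, [i], some B.length⟩) (by simp)]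
  simp [h.lab_append _ hi, pid]

/-- names of critical nodes determine them -/
theorem WF.pid_inj {B : List Node} (h : WF B) {c d c' d' : ℕ} {a b : Node}
    (ha : B[c]? = some a) (hac : a.partner = some c') (hb : B[d]? = some b)
    (hbd : b.partner = some d') (he : pid c c' = pid d d') : c = d := by
  obtain ⟨hc, a', ha', hpa⟩ := h.par c a c' ha hac
  obtain ⟨hd, b', hb', hpb⟩ := h.par d b d' hb hbd
  simp only [pid, Prod.mk.injEq, decide_eq_decide] at he
  obtain ⟨h1, h2⟩ := he
  by_cases hcc : c' < c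
  · have hdd : d' < d := h2.mp hcc
    have e : c' = d' := by
      rw [min_eq_right hcc.le, min_eq_right hdd.le] at h1
      exact h1
    subst e
    rw [ha'] at hb'
    cases hb'
    rw [hpa] at hpb
    exact (Option.some.inj hpb)
  · have hdd : ¬ d' < d := fun hh => hcc (h2.mpr hh)
    rw [min_eq_left (by omega), min_eq_left (by omega)] at h1
    exact h1

/-- The labelled calculus. -/
inductive G (S : Set Form) : Set (Form × Set (ℕ × Bool)) → Prop
  | crash {Γ : Set (Form × Set (ℕ × Bool))} (ζ : Form) (C D : Set (ℕ × Bool))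
      (h1 : (ζ, C) ∈ Γ) (h2 : (Form.neg ζ, D) ∈ Γ)
      (hp : ∀ k, (k, false) ∈ C ∪ D ↔ (k, true) ∈ C ∪ D) : G S Γ
  | disj {Γ : Set (Form × Set (ℕ × Bool))} (θ χ : Form) (C : Set (ℕ × Bool))
      (h : (Form.or θ χ, C) ∈ Γ) (g1 : G S (insert (θ, C) Γ)) (g2 : G S (insert (χ, C) Γ)) : G S Γ
  | negconj {Γ : Set (Form × Set (ℕ × Bool))} (θ χ : Form) (C : Set (ℕ × Bool))
      (h : (Form.neg (.and θ χ), C) ∈ Γ) (g1 : G S (insert (.neg θ, C) Γ))
      (g2 : G S (insert (.neg χ, C) Γ)) : G S Γ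
  | negneg {Γ : Set (Form × Set (ℕ × Bool))} (θ : Form) (C : Set (ℕ × Bool))
      (h : (Form.neg (.neg θ), C) ∈ Γ) (g : G S (insert (θ, C) Γ)) : G S Γ
  | conj {Γ : Set (Form × Set (ℕ × Bool))} (θ χ : Form) (C : Set (ℕ × Bool))
      (h : (Form.and θ χ, C) ∈ Γ) (g : G S (insert (χ, C) (insert (θ, C) Γ))) : G S Γ
  | negdisj {Γ : Set (Form × Set (ℕ × Bool))} (θ χ : Form) (C : Set (ℕ × Bool))
      (h : (Form.neg (.or θ χ), C) ∈ Γ)
      (g : G S (insert (.neg χ, C) (insert (.neg θ, C) Γ))) : G S Γ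
  | counter {Γ : Set (Form × Set (ℕ × Bool))} (θ χ : Form) (C : Set (ℕ × Bool)) (k : ℕ)
      (h : (Form.neg (.imp θ χ), C) ∈ Γ) (hk : ∀ x ∈ Γ, ∀ b, (k, b) ∉ x.2)
      (g : G S (insert (.neg χ, insert (k, true) C) (insert (θ, insert (k, false) C) Γ))) : G S Γ
  | mp {Γ : Set (Form × Set (ℕ × Bool))} (θ χ : Form) (C D : Set (ℕ × Bool))
      (h1 : (θ, C) ∈ Γ) (h2 : (Form.imp θ χ, D) ∈ Γ) (g : G S (insert (χ, C ∪ D) Γ)) : G S Γ
  | recursive {Γ : Set (Form × Set (ℕ × Bool))} (θ χ : Form) (C : Set (ℕ × Bool))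
      (h : (θ, C) ∈ Γ) (hS : Form.imp θ χ ∈ S) (g : G S (insert (χ, C) Γ)) : G S Γ

/-- renaming of labels -/
def ren (ι : ℕ → ℕ) (C : Set (ℕ × Bool)) : Set (ℕ × Bool) := (fun y => (ι y.1, y.2)) '' C

theorem mem_ren {ι : ℕ → ℕ} {C : Set (ℕ × Bool)} {m : ℕ} {b : Bool} :
    (m, b) ∈ ren ι C ↔ ∃ k, (k, b) ∈ C ∧ ι k = m := by
  constructor
  · rintro ⟨⟨k, b'⟩, hk, he⟩
    simp only [Prod.mk.injEq] at he
    obtain ⟨h1, rfl⟩ := he
    exact ⟨k, hk, h1⟩
  · rintro ⟨k, hk, rfl⟩
    exact ⟨(k, b), hk, rfl⟩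

theorem ren_insert (ι : ℕ → ℕ) (k : ℕ) (b : Bool) (C : Set (ℕ × Bool)) :
    ren ι (insert (k, b) C) = insert (ι k, b) (ren ι C) := Set.image_insert_eq

/-- the branch represents the labelled set -/
def Rep (B : List Node) (ι : ℕ → ℕ) (Γ : Set (Form × Set (ℕ × Bool))) : Prop :=
  ∀ x ∈ Γ, ∃ (k : ℕ) (a : Node), B[k]? = some a ∧ a.fml = x.1 ∧ lab B k = ren ι x.2

theorem Rep.snoc {B : List Node} {ι : ℕ → ℕ} {Γ : Set (Form × Set (ℕ × Bool))} (h : Rep B ι Γ)
    (wf : WF B) (φ : Form) (i : ℕ) (C : Set (ℕ × Bool)) (hi : i < B.length)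
    (hC : lab B i = ren ι C) : Rep (B ++ [⟨φ, [i], none⟩]) ι (insert (φ, C) Γ) := by
  intro x hx
  rcases hx with rfl | hx
  · exact ⟨B.length, ⟨φ, [i], none⟩, by simp, rfl, by rw [wf.lab_snoc φ i hi]; exact hC⟩
  · obtain ⟨k, a, hk, ha, hl⟩ := h x hx
    exact ⟨k, a, by rw [get_append (get_lt hk)]; exact hk, ha,
      by rw [wf.lab_append _ (get_lt hk)]; exact hl⟩

theorem good_of_G {S : Set Form} {Γ : Set (Form × Set (ℕ × Bool))} (h : G S Γ) :
    ∀ (B : List Node) (ι : ℕ → ℕ), WF B → Rep B ι Γ → Good S B := by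
  induction h with
  | crash ζ C D h1 h2 hp =>
    intro B ι wf hr
    obtain ⟨i, a, hi, ha, hli⟩ := hr _ h1
    obtain ⟨j, b, hj, hb, hlj⟩ := hr _ h2
    refine .crash i j a b hi hj (by rw [hb, ha]) ?_
    have tr : ∀ c e c', B[c]? = some e → e.partner = some c' →
        ((Trace B i c ∨ Trace B j c) ↔ pid c c' ∈ ren ι (C ∪ D)) := by
      intro c e c' hc he
      have h3 : ren ι (C ∪ D) = lab B i ∪ lab B j := by
        rw [hli, hlj]
        exact Set.image_union _ _ _
      rw [h3]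
      constructor
      · rintro (ht | ht)
        · exact Or.inl ⟨c, e, c', ht, hc, he, rfl⟩
        · exact Or.inr ⟨c, e, c', ht, hc, he, rfl⟩
      · rintro (⟨d, f, d', ht, hd, hf, he'⟩ | ⟨d, f, d', ht, hd, hf, he'⟩)
        · rw [wf.pid_inj hc he hd hf he']; exact Or.inl ht
        · rw [wf.pid_inj hc he hd hf he']; exact Or.inr ht
    intro c e c' hc he
    obtain ⟨hne, e', he', hpe⟩ := wf.par c e c' hc he
    rw [tr c e c' hc he, tr c' e' c he' hpe]
    have key : ∀ m, (m, false) ∈ ren ι (C ∪ D) ↔ (m, true) ∈ ren ι (C ∪ D) := by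
      intro m
      rw [mem_ren, mem_ren]
      constructor
      · rintro ⟨k, hk, rfl⟩; exact ⟨k, (hp k).mp hk, rfl⟩
      · rintro ⟨k, hk, rfl⟩; exact ⟨k, (hp k).mpr hk, rfl⟩
    rcases Nat.lt_or_gt_of_ne hne with hlt | hlt
    · have e1 : pid c c' = (c, false) := by
        simp [pid, hlt.le]
      have e2 : pid c' c = (c, true) := by
        simp [pid, hlt.le, hlt]
      rw [e1, e2]; exact key c
    · have e1 : pid c c' = (c', true) := by
        simp [pid, hlt.le, hlt]
      have e2 : pid c' c = (c', false) := by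
        simp [pid, hlt.le]
      rw [e1, e2]; exact (key c').symm
  | disj θ χ C h1 g1 g2 ih1 ih2 =>
    intro B ι wf hr
    obtain ⟨i, a, hi, ha, hli⟩ := hr _ h1
    have hlt := get_lt hi
    refine .disj i a θ χ hi ha (ih1 _ ι ?_ (hr.snoc wf θ i C hlt hli))
      (ih2 _ ι ?_ (hr.snoc wf χ i C hlt hli))
    · exact wf.snoc _ (by simp) (by intro m hm; rw [List.mem_singleton] at hm; omega) rfl
    · exact wf.snoc _ (by simp) (by intro m hm; rw [List.mem_singleton] at hm; omega) rfl
  | negconj θ χ C h1 g1 g2 ih1 ih2 =>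
    intro B ι wf hr
    obtain ⟨i, a, hi, ha, hli⟩ := hr _ h1
    have hlt := get_lt hi
    refine .negconj i a θ χ hi ha (ih1 _ ι ?_ (hr.snoc wf _ i C hlt hli))
      (ih2 _ ι ?_ (hr.snoc wf _ i C hlt hli))
    · exact wf.snoc _ (by simp) (by intro m hm; rw [List.mem_singleton] at hm; omega) rfl
    · exact wf.snoc _ (by simp) (by intro m hm; rw [List.mem_singleton] at hm; omega) rfl
  | negneg θ C h1 g ih =>
    intro B ι wf hr
    obtain ⟨i, a, hi, ha, hli⟩ := hr _ h1
    have hlt := get_lt hi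
    refine .negneg i a θ hi ha (ih _ ι ?_ (hr.snoc wf θ i C hlt hli))
    exact wf.snoc _ (by simp) (by intro m hm; rw [List.mem_singleton] at hm; omega) rfl
  | conj θ χ C h1 g ih =>
    intro B ι wf hr
    obtain ⟨i, a, hi, ha, hli⟩ := hr _ h1
    have hlt := get_lt hi
    refine .conj i a θ χ hi ha ?_
    have e : B ++ [⟨θ, [i], none⟩, ⟨χ, [i], none⟩] =
        (B ++ [(⟨θ, [i], none⟩ : Node)]) ++ [⟨χ, [i], none⟩] := by simp
    rw [e]
    have wf1 : WF (B ++ [(⟨θ, [i], none⟩ : Node)]) :=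
      wf.snoc _ (by simp) (by intro m hm; rw [List.mem_singleton] at hm; omega) rfl
    have hlt1 : i < (B ++ [(⟨θ, [i], none⟩ : Node)]).length := by simp; omega
    have wf2 : WF ((B ++ [(⟨θ, [i], none⟩ : Node)]) ++ [⟨χ, [i], none⟩]) :=
      wf1.snoc _ (by simp) (by intro m hm; rw [List.mem_singleton] at hm; omega) rfl
    refine ih _ ι wf2 ?_
    exact (hr.snoc wf θ i C hlt hli).snoc wf1 χ i C hlt1 (by rw [wf.lab_append _ hlt]; exact hli)
  | negdisj θ χ C h1 g ih =>
    intro B ι wf hr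
    obtain ⟨i, a, hi, ha, hli⟩ := hr _ h1
    have hlt := get_lt hi
    refine .negdisj i a θ χ hi ha ?_
    have e : B ++ [⟨.neg θ, [i], none⟩, ⟨.neg χ, [i], none⟩] =
        (B ++ [(⟨.neg θ, [i], none⟩ : Node)]) ++ [⟨.neg χ, [i], none⟩] := by simp
    rw [e]
    have wf1 : WF (B ++ [(⟨.neg θ, [i], none⟩ : Node)]) :=
      wf.snoc _ (by simp) (by intro m hm; rw [List.mem_singleton] at hm; omega) rfl
    have hlt1 : i < (B ++ [(⟨.neg θ, [i], none⟩ : Node)]).length := by simp; omega
    have wf2 : WF ((B ++ [(⟨.neg θ, [i], none⟩ : Node)]) ++ [⟨.neg χ, [i], none⟩]) :=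
      wf1.snoc _ (by simp) (by intro m hm; rw [List.mem_singleton] at hm; omega) rfl
    refine ih _ ι wf2 ?_
    exact (hr.snoc wf _ i C hlt hli).snoc wf1 _ i C hlt1 (by rw [wf.lab_append _ hlt]; exact hli)
  | counter θ χ C n h1 hn g ih =>
    intro B ι wf hr
    obtain ⟨i, a, hi, ha, hli⟩ := hr _ h1
    have hlt := get_lt hi
    refine .counter i a θ χ hi ha (ih _ (Function.update ι n B.length)
      (wf.pair _ _ i hlt) ?_)
    have old : ∀ D : Set (ℕ × Bool), (∀ b, (n, b) ∉ D) →
        ren (Function.update ι n B.length) D = ren ι D := by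
      intro D hD
      apply Set.image_congr
      rintro ⟨m, b⟩ hm
      have : m ≠ n := by
        rintro rfl
        exact hD b hm
      simp [Function.update_of_ne this]
    have hCn : ∀ b, (n, b) ∉ C := hn _ h1
    intro x hx
    rcases hx with rfl | rfl | hx
    · refine ⟨B.length + 1, ⟨.neg χ, [i], some B.length⟩, by simp, rfl, ?_⟩
      rw [wf.lab_pair2 _ _ i hlt, hli]
      change _ = ren _ (insert (n, true) C)
      rw [ren_insert, old C hCn, Function.update_self]
    · refine ⟨B.length, ⟨θ, [i], some (B.length + 1)⟩, by simp, rfl, ?_⟩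
      rw [wf.lab_pair1 _ _ i hlt, hli]
      change _ = ren _ (insert (n, false) C)
      rw [ren_insert, old C hCn, Function.update_self]
    · obtain ⟨k, a, hk, ha, hl⟩ := hr x hx
      refine ⟨k, a, by rw [get_append (get_lt hk)]; exact hk, ha, ?_⟩
      rw [wf.lab_append _ (get_lt hk), hl, old x.2 (hn x hx)]
  | mp θ χ C D h1 h2 g ih =>
    intro B ι wf hr
    obtain ⟨i, a, hi, ha, hli⟩ := hr _ h1
    obtain ⟨j, b, hj, hb, hlj⟩ := hr _ h2
    have hlti := get_lt hi
    have hltj := get_lt hj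
    simp only at ha hb
    subst ha
    refine .mp i j a b χ hi hj hb (ih _ ι ?_ ?_)
    · exact wf.snoc _ (by simp) (by
        intro m hm
        simp only [List.mem_cons, List.not_mem_nil, or_false] at hm
        omega) rfl
    · intro x hx
      rcases hx with rfl | hx
      · refine ⟨B.length, ⟨χ, [i, j], none⟩, by simp, rfl, ?_⟩
        rw [wf.lab_snoc2 χ i j hlti hltj, hli, hlj]
        exact (Set.image_union _ _ _).symm
      · obtain ⟨k, a, hk, ha, hl⟩ := hr x hx
        exact ⟨k, a, by rw [get_append (get_lt hk)]; exact hk, ha,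
          by rw [wf.lab_append _ (get_lt hk)]; exact hl⟩
  | recursive θ χ C h1 hS g ih =>
    intro B ι wf hr
    obtain ⟨i, a, hi, ha, hli⟩ := hr _ h1
    have hlt := get_lt hi
    simp only at ha
    subst ha
    refine .recursive i a χ hi hS (ih _ ι ?_ (hr.snoc wf χ i C hlt hli))
    exact wf.snoc _ (by simp) (by intro m hm; rw [List.mem_singleton] at hm; omega) rfl

theorem Good.mono {S S' : Set Form} (hSS : S ⊆ S') {B : List Node} (h : Good S B) :
    Good S' B := by
  induction h with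
  | crash i j a b hi hj hab hp => exact .crash i j a b hi hj hab hp
  | negneg i a θ hi ha _ ih => exact .negneg i a θ hi ha ih
  | conj i a θ χ hi ha _ ih => exact .conj i a θ χ hi ha ih
  | negdisj i a θ χ hi ha _ ih => exact .negdisj i a θ χ hi ha ih
  | disj i a θ χ hi ha _ _ ih1 ih2 => exact .disj i a θ χ hi ha ih1 ih2
  | negconj i a θ χ hi ha _ _ ih1 ih2 => exact .negconj i a θ χ hi ha ih1 ih2
  | counter i a θ χ hi ha _ ih => exact .counter i a θ χ hi ha ih
  | mp i j a b χ hi hj hb _ ih => exact .mp i j a b χ hi hj hb ih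
  | recursive i a χ hi hS _ ih => exact .recursive i a χ hi (hSS hS) ih

theorem acc_of_good {φ : Form} (h : HasGoodTree Acceptable φ) : φ ∈ Acceptable := by
  intro S hS
  apply hS
  exact Good.mono (S := Acceptable) (fun ψ hψ => hψ S hS) h

theorem acc_of_G {φ : Form} (h : G Acceptable {(.neg φ, ∅)}) : φ ∈ Acceptable := by
  apply acc_of_good
  refine good_of_G h _ (fun k => k) (WF.root _) ?_
  rintro x rfl
  refine ⟨0, ⟨.neg φ, [], none⟩, by simp, rfl, ?_⟩
  ext x
  rw [mem_lab_iff (a := ⟨.neg φ, [], none⟩) (by simp)]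
  simp [ren]

end Q220.TruthTree
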