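import Pool.Agent.Q220.TruthTree.Facts

/-!
# The pair translation preserves acceptability
-/

set_option autoImplicit false

namespace Q220.TruthTree

/-- component of a pair -/
def pr (b : Bool) (x : V × V) : V := if b = true then x.2 else x.1

/-- the trace of the position contains no node with value `⊤` -/
def Kept (B : List Node) (v : ℕ → V) (k : ℕ) : Prop := ∀ x, Trace B k x → v x ≠ .top

theorem Kept.ne {B : List Node} {v : ℕ → V} {k : ℕ} (h : Kept B v k) : v k ≠ .top :=
  h k Relation.ReflTransGen.refl

theorem V.eq_bot_of_le {x : V} (h : V.le x .bot) : x = .bot := by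
  cases x with
  | top => exact h.elim
  | bot => rfl
  | form a => exact h.elim

theorem V.eq_top_of_le {x : V} (h : V.le .top x) : x = .top := by
  cases x with
  | top => rfl
  | bot => exact h.elim
  | form a => exact h.elim

/-- invariant of the translation -/
structure Inv (P : ℕ → Prop) (B : List Node) (l : ℕ → Bool) (v : ℕ → V)
    (Γ : Set (Form × Set (ℕ × Bool))) : Prop where
  wf : WF B
  root : l 0 = true
  bits : ∀ (y : ℕ) (a : Node), B[y]? = some a → ∀ x ∈ a.inputs, l x = true →
    l y = true ∨ ∃ y', a.partner = some y' ∧ l y' = true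
  val : ∀ (k : ℕ) (a : Node), B[k]? = some a → v k = pr (l k) (tr P a.fml)
  nb : ∀ k, k < B.length → v k ≠ .bot
  tp : ∀ (y : ℕ) (a : Node), B[y]? = some a → ∀ x ∈ a.inputs, v x = .top →
    v y = .top ∨ ∃ y', a.partner = some y' ∧ v y' = .top
  kept : ∀ k, k < B.length → Kept B v k → ∃ ξ, v k = .form ξ ∧ (ξ, lab B k) ∈ Γ
  fresh : ∀ x ∈ Γ, ∀ n, B.length ≤ n → ∀ b, (n, b) ∉ x.2

theorem WF.lab_fresh {B : List Node} (h : WF B) {k n : ℕ} (hk : k < B.length)
    (hn : B.length ≤ n) (b : Bool) : (n, b) ∉ lab B k := by
  rintro ⟨c, a, c', ht, ha, hc, hx⟩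
  have h1 := h.trace_le ht
  simp only [pid, Prod.mk.injEq] at hx
  have h2 : min c c' ≤ c := min_le_left _ _
  omega

theorem Inv.mono {P : ℕ → Prop} {B : List Node} {l : ℕ → Bool} {v : ℕ → V}
    {Γ Γ' : Set (Form × Set (ℕ × Bool))} (h : Inv P B l v Γ) (hs : Γ ⊆ Γ')
    (hf : ∀ x ∈ Γ', ∀ n, B.length ≤ n → ∀ b, (n, b) ∉ x.2) : Inv P B l v Γ' where
  wf := h.wf
  root := h.root
  bits := h.bits
  val := h.val
  nb := h.nb
  tp := h.tp
  kept := by
    intro k hk hK
    obtain ⟨ξ, h1, h2⟩ := h.kept k hk hK
    exact ⟨ξ, h1, hs h2⟩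
  fresh := hf

theorem kept_append {B L : List Node} (wf : WF B) {v v' : ℕ → V}
    (hv : ∀ x, x < B.length → v' x = v x) {k : ℕ} (hk : k < B.length) :
    Kept (B ++ L) v' k ↔ Kept B v k := by
  constructor
  · intro h x hx
    have := wf.trace_le hx
    rw [← hv x (by omega)]
    exact h x ((wf.trace_append L hk).mpr hx)
  · intro h x hx
    rw [wf.trace_append L hk] at hx
    have := wf.trace_le hx
    rw [hv x (by omega)]
    exact h x hx

theorem kept_input {B L : List Node} (wf : WF B) {v v' : ℕ → V}
    (hv : ∀ x, x < B.length → v' x = v x) {k m : ℕ} {a : Node} (ha : (B ++ L)[k]? = some a)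
    (hm : m ∈ a.inputs) (hm' : m < B.length) (h : Kept (B ++ L) v' k) : Kept B v m := by
  rw [← kept_append (L := L) wf hv hm']
  intro x hx
  exact h x (Relation.ReflTransGen.head ⟨a, ha, hm⟩ hx)

theorem Inv.snoc {P : ℕ → Prop} {B : List Node} {l : ℕ → Bool} {v : ℕ → V}
    {Γ Γ' : Set (Form × Set (ℕ × Bool))} (h : Inv P B l v Γ) (hs : Γ ⊆ Γ') (φ : Form)
    (I : List ℕ) (b : Bool) (hne : I ≠ []) (hlt : ∀ m ∈ I, m < B.length)
    (hbits : ∀ m ∈ I, l m = true → b = true) (hnb : pr b (tr P φ) ≠ .bot)
    (htp : ∀ m ∈ I, v m = .top → pr b (tr P φ) = .top)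
    (hkept : (∀ m ∈ I, Kept B v m) → pr b (tr P φ) ≠ .top →
      ∃ ξ, pr b (tr P φ) = .form ξ ∧ (ξ, lab (B ++ [⟨φ, I, none⟩]) B.length) ∈ Γ')
    (hf : ∀ x ∈ Γ', ∀ n, B.length ≤ n → ∀ b, (n, b) ∉ x.2) :
    Inv P (B ++ [⟨φ, I, none⟩]) (Function.update l B.length b)
      (Function.update v B.length (pr b (tr P φ))) Γ' := by
  have hpos := h.wf.pos
  have ol : ∀ k, k < B.length → Function.update l B.length b k = l k := fun k hk =>
    Function.update_of_ne (by omega) _ _
  have ov : ∀ k, k < B.length → Function.update v B.length (pr b (tr P φ)) k = v k :=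
    fun k hk => Function.update_of_ne (by omega) _ _
  constructor
  · exact h.wf.snoc _ hne hlt rfl
  · rw [ol 0 hpos]; exact h.root
  · intro y a ha x hx hlx
    rcases get_snoc ha with ⟨hk, ha⟩ | ⟨rfl, rfl⟩
    · have := h.wf.lt y a ha x hx
      rw [ol x (by omega)] at hlx
      rcases h.bits y a ha x hx hlx with h1 | ⟨y', hp, h1⟩
      · left; rw [ol y hk]; exact h1
      · right
        obtain ⟨_, a', ha', _⟩ := h.wf.par y a y' ha hp
        exact ⟨y', hp, by rw [ol y' (get_lt ha')]; exact h1⟩
    · left
      rw [ol x (hlt x hx)] at hlx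
      rw [Function.update_self]
      exact hbits x hx hlx
  · intro k a ha
    rcases get_snoc ha with ⟨hk, ha⟩ | ⟨rfl, rfl⟩
    · rw [ov k hk, ol k hk]; exact h.val k a ha
    · rw [Function.update_self, Function.update_self]
  · intro k hk
    rw [List.length_append, List.length_singleton] at hk
    by_cases hk' : k < B.length
    · rw [ov k hk']; exact h.nb k hk'
    · have : k = B.length := by omega
      subst this
      rw [Function.update_self]; exact hnb
  · intro y a ha x hx hlx
    rcases get_snoc ha with ⟨hk, ha⟩ | ⟨rfl, rfl⟩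
    · have := h.wf.lt y a ha x hx
      rw [ov x (by omega)] at hlx
      rcases h.tp y a ha x hx hlx with h1 | ⟨y', hp, h1⟩
      · left; rw [ov y hk]; exact h1
      · right
        obtain ⟨_, a', ha', _⟩ := h.wf.par y a y' ha hp
        exact ⟨y', hp, by rw [ov y' (get_lt ha')]; exact h1⟩
    · left
      rw [ov x (hlt x hx)] at hlx
      rw [Function.update_self]
      exact htp x hx hlx
  · intro k hk hK
    rw [List.length_append, List.length_singleton] at hk
    by_cases hk' : k < B.length
    · rw [kept_append h.wf ov hk'] at hK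
      rw [ov k hk', h.wf.lab_append _ hk']
      obtain ⟨ξ, h1, h2⟩ := h.kept k hk' hK
      exact ⟨ξ, h1, hs h2⟩
    · have : k = B.length := by omega
      subst this
      have hne' := hK.ne
      rw [Function.update_self] at hne' ⊢
      refine hkept ?_ hne'
      intro m hm
      exact kept_input h.wf ov (a := ⟨φ, I, none⟩) (by simp) hm (hlt m hm) hK
  · intro x hx n hn c
    rw [List.length_append, List.length_singleton] at hn
    exact hf x hx n (by omega) c

theorem Inv.pair {P : ℕ → Prop} {B : List Node} {l : ℕ → Bool} {v : ℕ → V}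
    {Γ Γ' : Set (Form × Set (ℕ × Bool))} (h : Inv P B l v Γ) (hs : Γ ⊆ Γ') (θ χ : Form)
    (i : ℕ) (hi : i < B.length) (b1 b2 : Bool) (hbits : l i = true → b1 = true ∨ b2 = true)
    (hnb1 : pr b1 (tr P θ) ≠ .bot) (hnb2 : pr b2 (tr P χ) ≠ .bot)
    (htp : v i = .top → pr b1 (tr P θ) = .top ∨ pr b2 (tr P χ) = .top)
    (hkept : Kept B v i → ∃ p q, pr b1 (tr P θ) = .form p ∧ pr b2 (tr P χ) = .form q ∧
      (p, insert (B.length, false) (lab B i)) ∈ Γ' ∧
      (q, insert (B.length, true) (lab B i)) ∈ Γ')
    (hf : ∀ x ∈ Γ', ∀ n, B.length + 2 ≤ n → ∀ b, (n, b) ∉ x.2) :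
    Inv P (B ++ [⟨θ, [i], some (B.length + 1)⟩, ⟨χ, [i], some B.length⟩])
      (Function.update (Function.update l B.length b1) (B.length + 1) b2)
      (Function.update (Function.update v B.length (pr b1 (tr P θ))) (B.length + 1)
        (pr b2 (tr P χ))) Γ' := by
  have hpos := h.wf.pos
  set l' := Function.update (Function.update l B.length b1) (B.length + 1) b2 with hl'
  set v' := Function.update (Function.update v B.length (pr b1 (tr P θ))) (B.length + 1)
    (pr b2 (tr P χ)) with hv'
  have ol : ∀ k, k < B.length → l' k = l k := fun k hk => by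
    rw [hl', Function.update_of_ne (by omega), Function.update_of_ne (by omega)]
  have ov : ∀ k, k < B.length → v' k = v k := fun k hk => by
    rw [hv', Function.update_of_ne (by omega), Function.update_of_ne (by omega)]
  have el1 : l' B.length = b1 := by
    rw [hl', Function.update_of_ne (by omega), Function.update_self]
  have el2 : l' (B.length + 1) = b2 := by rw [hl', Function.update_self]
  have ev1 : v' B.length = pr b1 (tr P θ) := by
    rw [hv', Function.update_of_ne (by omega), Function.update_self]
  have ev2 : v' (B.length + 1) = pr b2 (tr P χ) := by rw [hv', Function.update_self]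
  constructor
  · exact h.wf.pair θ χ i hi
  · rw [ol 0 hpos]; exact h.root
  · intro y a ha x hx hlx
    rcases get_snoc2 ha with ⟨hk, ha⟩ | ⟨rfl, rfl⟩ | ⟨rfl, rfl⟩
    · have := h.wf.lt y a ha x hx
      rw [ol x (by omega)] at hlx
      rcases h.bits y a ha x hx hlx with h1 | ⟨y', hp, h1⟩
      · left; rw [ol y hk]; exact h1
      · right
        obtain ⟨_, a', ha', _⟩ := h.wf.par y a y' ha hp
        exact ⟨y', hp, by rw [ol y' (get_lt ha')]; exact h1⟩
    · rw [List.mem_singleton] at hx
      subst hx
      rw [ol x hi] at hlx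
      rcases hbits hlx with h1 | h1
      · left; rw [el1]; exact h1
      · right; exact ⟨B.length + 1, rfl, by rw [el2]; exact h1⟩
    · rw [List.mem_singleton] at hx
      subst hx
      rw [ol x hi] at hlx
      rcases hbits hlx with h1 | h1
      · right; exact ⟨B.length, rfl, by rw [el1]; exact h1⟩
      · left; rw [el2]; exact h1
  · intro k a ha
    rcases get_snoc2 ha with ⟨hk, ha⟩ | ⟨rfl, rfl⟩ | ⟨rfl, rfl⟩
    · rw [ov k hk, ol k hk]; exact h.val k a ha
    · rw [ev1, el1]
    · rw [ev2, el2]
  · intro k hk
    have hk2 : k < B.length + 2 := by simpa using hk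
    by_cases hk' : k < B.length
    · rw [ov k hk']; exact h.nb k hk'
    · by_cases hk'' : k = B.length
      · subst hk''
        rw [ev1]; exact hnb1
      · have : k = B.length + 1 := by omega
        subst this
        rw [ev2]; exact hnb2
  · intro y a ha x hx hlx
    rcases get_snoc2 ha with ⟨hk, ha⟩ | ⟨rfl, rfl⟩ | ⟨rfl, rfl⟩
    · have := h.wf.lt y a ha x hx
      rw [ov x (by omega)] at hlx
      rcases h.tp y a ha x hx hlx with h1 | ⟨y', hp, h1⟩
      · left; rw [ov y hk]; exact h1
      · right
        obtain ⟨_, a', ha', _⟩ := h.wf.par y a y' ha hp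
        exact ⟨y', hp, by rw [ov y' (get_lt ha')]; exact h1⟩
    · rw [List.mem_singleton] at hx
      subst hx
      rw [ov x hi] at hlx
      rcases htp hlx with h1 | h1
      · left; rw [ev1]; exact h1
      · right; exact ⟨B.length + 1, rfl, by rw [ev2]; exact h1⟩
    · rw [List.mem_singleton] at hx
      subst hx
      rw [ov x hi] at hlx
      rcases htp hlx with h1 | h1
      · right; exact ⟨B.length, rfl, by rw [ev1]; exact h1⟩
      · left; rw [ev2]; exact h1
  · intro k hk hK
    have hk2 : k < B.length + 2 := by simpa using hk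
    by_cases hk' : k < B.length
    · rw [kept_append h.wf ov hk'] at hK
      rw [ov k hk', h.wf.lab_append _ hk']
      obtain ⟨ξ, h1, h2⟩ := h.kept k hk' hK
      exact ⟨ξ, h1, hs h2⟩
    · by_cases hk'' : k = B.length
      · subst hk''
        have hKi : Kept B v i :=
          kept_input h.wf ov (a := ⟨θ, [i], some (B.length + 1)⟩) (by simp) (by simp) hi hK
        obtain ⟨p, q, hp, hq, h1, h2⟩ := hkept hKi
        rw [ev1, h.wf.lab_pair1 θ χ i hi]
        exact ⟨p, hp, h1⟩
      · have : k = B.length + 1 := by omega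
        subst this
        have hKi : Kept B v i :=
          kept_input h.wf ov (a := ⟨χ, [i], some B.length⟩) (by simp) (by simp) hi hK
        obtain ⟨p, q, hp, hq, h1, h2⟩ := hkept hKi
        rw [ev2, h.wf.lab_pair2 θ χ i hi]
        exact ⟨q, hq, h2⟩
  · intro x hx n hn c
    have hn2 : B.length + 2 ≤ n := by simpa using hn
    exact hf x hx n hn2 c

theorem fresh_insert {B : List Node} {Γ : Set (Form × Set (ℕ × Bool))} {ξ : Form}
    {C : Set (ℕ × Bool)} (hf : ∀ x ∈ Γ, ∀ n, B.length ≤ n → ∀ b, (n, b) ∉ x.2)
    (hC : ∀ n, B.length ≤ n → ∀ b, (n, b) ∉ C) :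
    ∀ x ∈ insert (ξ, C) Γ, ∀ n, B.length ≤ n → ∀ b, (n, b) ∉ x.2 := by
  intro x hx n hn b
  rcases hx with rfl | hx
  · exact hC n hn b
  · exact hf x hx n hn b

theorem Inv.step {P : ℕ → Prop} {B : List Node} {l : ℕ → Bool} {v : ℕ → V}
    {Γ : Set (Form × Set (ℕ × Bool))} (h : Inv P B l v Γ) (φ : Form) (i : ℕ)
    (hi : i < B.length) (hle : V.le (v i) (pr (l i) (tr P φ)))
    (hg : ∀ Γ', Inv P (B ++ [⟨φ, [i], none⟩]) (Function.update l B.length (l i))
      (Function.update v B.length (pr (l i) (tr P φ))) Γ' → G Acceptable Γ') :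
    G Acceptable Γ := by
  have hlt : ∀ m ∈ [i], m < B.length := by
    intro m hm; rw [List.mem_singleton] at hm; omega
  have hbits : ∀ m ∈ [i], l m = true → l i = true := by
    intro m hm; rw [List.mem_singleton] at hm; rw [hm]; exact fun h => h
  have hnb : pr (l i) (tr P φ) ≠ .bot := by
    intro hc
    rw [hc] at hle
    exact h.nb i hi (V.eq_bot_of_le hle)
  have htp : ∀ m ∈ [i], v m = .top → pr (l i) (tr P φ) = .top := by
    intro m hm hv
    rw [List.mem_singleton] at hm
    rw [hm] at hv
    rw [hv] at hle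
    exact V.eq_top_of_le hle
  by_cases hK : Kept B v i
  · obtain ⟨ξ, hξ, hmem⟩ := h.kept i hi hK
    cases hx : pr (l i) (tr P φ) with
    | bot => exact (hnb hx).elim
    | top =>
      apply hg Γ
      refine h.snoc (subset_refl _) φ [i] (l i) (by simp) hlt hbits hnb htp ?_ h.fresh
      intro _ hc
      exact (hc hx).elim
    | form η =>
      have hA : .imp ξ η ∈ Acceptable := by
        rw [hξ, hx] at hle
        exact hle
      refine .recursive ξ η (lab B i) hmem hA (hg _ ?_)
      refine h.snoc (Set.subset_insert _ _) φ [i] (l i) (by simp) hlt hbits hnb htp ?_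
        (fresh_insert h.fresh (fun n hn b => h.wf.lab_fresh hi hn b))
      intro _ _
      refine ⟨η, hx, ?_⟩
      rw [h.wf.lab_snoc φ i hi]
      exact Set.mem_insert _ _
  · apply hg Γ
    refine h.snoc (subset_refl _) φ [i] (l i) (by simp) hlt hbits hnb htp ?_ h.fresh
    intro hc _
    exact (hK (hc i (List.mem_singleton.mpr rfl))).elim

theorem Inv.fork {P : ℕ → Prop} {B : List Node} {l : ℕ → Bool} {v : ℕ → V}
    {Γ : Set (Form × Set (ℕ × Bool))} (h : Inv P B l v Γ) (φ ψ : Form) (i : ℕ)
    (hi : i < B.length)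
    (hle : V.le (v i) (V.or (pr (l i) (tr P φ)) (pr (l i) (tr P ψ))))
    (hg1 : ∀ Γ', Inv P (B ++ [⟨φ, [i], none⟩]) (Function.update l B.length (l i))
      (Function.update v B.length (pr (l i) (tr P φ))) Γ' → G Acceptable Γ')
    (hg2 : ∀ Γ', Inv P (B ++ [⟨ψ, [i], none⟩]) (Function.update l B.length (l i))
      (Function.update v B.length (pr (l i) (tr P ψ))) Γ' → G Acceptable Γ') :
    G Acceptable Γ := by
  have hlt : ∀ m ∈ [i], m < B.length := by
    intro m hm; rw [List.mem_singleton] at hm; omega
  have hbits : ∀ m ∈ [i], l m = true → l i = true := by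
    intro m hm; rw [List.mem_singleton] at hm; rw [hm]; exact fun h => h
  cases hx : pr (l i) (tr P φ) with
  | top =>
    apply hg1 Γ
    refine h.snoc (subset_refl _) φ [i] (l i) (by simp) hlt hbits (by rw [hx]; simp)
      (fun _ _ _ => hx) ?_ h.fresh
    intro _ hc
    exact (hc hx).elim
  | bot =>
    refine h.step ψ i hi ?_ hg2
    rw [hx] at hle
    exact hle
  | form p =>
    cases hy : pr (l i) (tr P ψ) with
    | top =>
      apply hg2 Γ
      refine h.snoc (subset_refl _) ψ [i] (l i) (by simp) hlt hbits (by rw [hy]; simp)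
        (fun _ _ _ => hy) ?_ h.fresh
      intro _ hc
      exact (hc hy).elim
    | bot =>
      refine h.step φ i hi ?_ hg1
      rw [hx, hy] at hle
      rw [hx]
      exact hle
    | form q =>
      rw [hx, hy] at hle
      have hvt : v i ≠ .top := by
        intro hc
        rw [hc] at hle
        exact hle.elim
      by_cases hK : Kept B v i
      · obtain ⟨ξ, hξ, hmem⟩ := h.kept i hi hK
        have hA : .imp ξ (.or p q) ∈ Acceptable := by
          rw [hξ] at hle
          exact hle
        have hfr : ∀ n, B.length ≤ n → ∀ b, (n, b) ∉ lab B i :=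
          fun n hn b => h.wf.lab_fresh hi hn b
        refine .recursive ξ (.or p q) (lab B i) hmem hA ?_
        refine .disj p q (lab B i) (Set.mem_insert _ _) (hg1 _ ?_) (hg2 _ ?_)
        · refine h.snoc ((Set.subset_insert _ _).trans (Set.subset_insert _ _)) φ [i] (l i)
            (by simp) hlt hbits (by rw [hx]; simp) ?_ ?_
            (fresh_insert (fresh_insert h.fresh hfr) hfr)
          · intro m hm hv
            rw [List.mem_singleton] at hm
            rw [hm] at hv
            exact (hvt hv).elim
          · intro _ _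
            refine ⟨p, hx, ?_⟩
            rw [h.wf.lab_snoc φ i hi]
            exact Set.mem_insert _ _
        · refine h.snoc ((Set.subset_insert _ _).trans (Set.subset_insert _ _)) ψ [i] (l i)
            (by simp) hlt hbits (by rw [hy]; simp) ?_ ?_
            (fresh_insert (fresh_insert h.fresh hfr) hfr)
          · intro m hm hv
            rw [List.mem_singleton] at hm
            rw [hm] at hv
            exact (hvt hv).elim
          · intro _ _
            refine ⟨q, hy, ?_⟩
            rw [h.wf.lab_snoc ψ i hi]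
            exact Set.mem_insert _ _
      · apply hg1 Γ
        refine h.snoc (subset_refl _) φ [i] (l i) (by simp) hlt hbits (by rw [hx]; simp) ?_ ?_
          h.fresh
        · intro m hm hv
          rw [List.mem_singleton] at hm
          rw [hm] at hv
          exact (hvt hv).elim
        · intro hc _
          exact (hK (hc i (List.mem_singleton.mpr rfl))).elim

theorem Inv.mpstep {P : ℕ → Prop} {B : List Node} {l : ℕ → Bool} {v : ℕ → V}
    {Γ : Set (Form × Set (ℕ × Bool))} (h : Inv P B l v Γ) (χ : Form) (i j : ℕ)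
    (hi : i < B.length) (hj : j < B.length) (b : Bool) (X : V) (hbi : l i = true → b = true)
    (hbj : l j = true → b = true) (h1 : V.le (v i) X)
    (h2 : V.le (v j) (V.imp X (pr b (tr P χ))))
    (hg : ∀ Γ', Inv P (B ++ [⟨χ, [i, j], none⟩]) (Function.update l B.length b)
      (Function.update v B.length (pr b (tr P χ))) Γ' → G Acceptable Γ') :
    G Acceptable Γ := by
  have hlt : ∀ m ∈ [i, j], m < B.length := by
    intro m hm
    simp only [List.mem_cons, List.not_mem_nil, or_false] at hm
    omega
  have hbits : ∀ m ∈ [i, j], l m = true → b = true := by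
    intro m hm
    simp only [List.mem_cons, List.not_mem_nil, or_false] at hm
    rcases hm with rfl | rfl
    · exact hbi
    · exact hbj
  cases hx : pr b (tr P χ) with
  | top =>
    apply hg Γ
    refine h.snoc (subset_refl _) χ [i, j] b (by simp) hlt hbits (by rw [hx]; simp)
      (fun _ _ _ => hx) ?_ h.fresh
    intro _ hc
    exact (hc hx).elim
  | bot =>
    rw [hx] at h2
    exfalso
    rcases X with _ | _ | p
    · exact h.nb j hj (V.eq_bot_of_le h2)
    · exact h.nb i hi (V.eq_bot_of_le h1)
    · exact h.nb j hj (V.eq_bot_of_le h2)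
  | form r =>
    rw [hx] at h2
    rcases X with _ | _ | p
    · exact (h.nb j hj (V.eq_bot_of_le h2)).elim
    · exact (h.nb i hi (V.eq_bot_of_le h1)).elim
    · have hvi : v i ≠ .top := by
        intro hc; rw [hc] at h1; exact h1.elim
      have hvj : v j ≠ .top := by
        intro hc; rw [hc] at h2; exact h2.elim
      have htp : ∀ m ∈ [i, j], v m = .top → pr b (tr P χ) = .top := by
        intro m hm hv
        simp only [List.mem_cons, List.not_mem_nil, or_false] at hm
        rcases hm with rfl | rfl
        · exact (hvi hv).elim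
        · exact (hvj hv).elim
      by_cases hK : Kept B v i ∧ Kept B v j
      · obtain ⟨ξ, hξ, hmem⟩ := h.kept i hi hK.1
        obtain ⟨η, hη, hmem'⟩ := h.kept j hj hK.2
        have hA : .imp ξ p ∈ Acceptable := by
          rw [hξ] at h1
          exact h1
        have hA' : .imp η (.imp p r) ∈ Acceptable := by
          rw [hη] at h2
          exact h2
        have hfi : ∀ n, B.length ≤ n → ∀ b, (n, b) ∉ lab B i :=
          fun n hn b => h.wf.lab_fresh hi hn b
        have hfj : ∀ n, B.length ≤ n → ∀ b, (n, b) ∉ lab B j :=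
          fun n hn b => h.wf.lab_fresh hj hn b
        refine .recursive ξ p (lab B i) hmem hA ?_
        refine .recursive η (.imp p r) (lab B j) (Set.mem_insert_of_mem _ hmem') hA' ?_
        refine .mp p r (lab B i) (lab B j) (Set.mem_insert_of_mem _ (Set.mem_insert _ _))
          (Set.mem_insert _ _) (hg _ ?_)
        refine h.snoc (((Set.subset_insert _ _).trans (Set.subset_insert _ _)).trans
          (Set.subset_insert _ _)) χ [i, j] b
            (by simp) hlt hbits (by rw [hx]; simp) htp ?_
            (fresh_insert (fresh_insert (fresh_insert h.fresh hfi) hfj) ?_)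
        · intro _ _
          refine ⟨r, hx, ?_⟩
          rw [h.wf.lab_snoc2 χ i j hi hj]
          exact Set.mem_insert _ _
        · rintro n hn c (hc | hc)
          · exact hfi n hn c hc
          · exact hfj n hn c hc
      · apply hg Γ
        refine h.snoc (subset_refl _) χ [i, j] b (by simp) hlt hbits (by rw [hx]; simp) htp ?_
          h.fresh
        intro hc _
        exact (hK ⟨hc i (by simp), hc j (by simp)⟩).elim

theorem pr_neg (P : ℕ → Prop) (b : Bool) (χ : Form) :
    pr b (tr P (.neg χ)) = V.neg (pr (!b) (tr P χ)) := by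
  cases b <;> rfl

theorem Inv.pairstep {P : ℕ → Prop} {B : List Node} {l : ℕ → Bool} {v : ℕ → V}
    {Γ : Set (Form × Set (ℕ × Bool))} (h : Inv P B l v Γ) (θ χ : Form) (i : ℕ)
    (hi : i < B.length) (b1 b2 : Bool) (hbits : l i = true → b1 = true ∨ b2 = true)
    (hWb : V.neg (V.imp (pr b1 (tr P θ)) (pr (!b2) (tr P χ))) ≠ .bot)
    (hWt : v i = .top → V.neg (V.imp (pr b1 (tr P θ)) (pr (!b2) (tr P χ))) = .top)
    (hWk : Kept B v i → ∃ ω, V.neg (V.imp (pr b1 (tr P θ)) (pr (!b2) (tr P χ))) = .form ω ∧
      (ω, lab B i) ∈ Γ)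
    (hg : ∀ l' v' Γ', Inv P (B ++ [⟨θ, [i], some (B.length + 1)⟩,
      ⟨.neg χ, [i], some B.length⟩]) l' v' Γ' → G Acceptable Γ') :
    G Acceptable Γ := by
  have hf2 : ∀ x ∈ Γ, ∀ n, B.length + 2 ≤ n → ∀ b, (n, b) ∉ x.2 :=
    fun x hx n hn b => h.fresh x hx n (by omega) b
  cases hx : pr b1 (tr P θ) with
  | bot =>
    rw [hx] at hWb
    exact (hWb rfl).elim
  | top =>
    cases hy : pr (!b2) (tr P χ) with
    | top => rw [hx, hy] at hWb; exact (hWb rfl).elim
    | bot =>
      refine hg _ _ Γ (h.pair (subset_refl _) θ (.neg χ) i hi b1 b2 hbits (by rw [hx]; simp)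
        (by rw [pr_neg, hy]; simp [V.neg]) (fun _ => Or.inl hx) ?_ hf2)
      intro hK
      obtain ⟨ω, hω, _⟩ := hWk hK
      rw [hx, hy] at hω
      exact absurd hω (by simp [V.imp, V.neg])
    | form q =>
      refine hg _ _ Γ (h.pair (subset_refl _) θ (.neg χ) i hi b1 b2 hbits (by rw [hx]; simp)
        (by rw [pr_neg, hy]; simp [V.neg]) (fun _ => Or.inl hx) ?_ hf2)
      intro hK
      obtain ⟨ω, hω, _⟩ := hWk hK
      rw [hx, hy] at hω
      exact absurd hω (by simp [V.imp, V.neg])
  | form p =>
    cases hy : pr (!b2) (tr P χ) with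
    | top => rw [hx, hy] at hWb; exact (hWb rfl).elim
    | bot =>
      refine hg _ _ Γ (h.pair (subset_refl _) θ (.neg χ) i hi b1 b2 hbits (by rw [hx]; simp)
        (by rw [pr_neg, hy]; simp [V.neg]) (fun _ => Or.inr (by rw [pr_neg, hy]; rfl)) ?_ hf2)
      intro hK
      obtain ⟨ω, hω, _⟩ := hWk hK
      rw [hx, hy] at hω
      exact absurd hω (by simp [V.imp, V.neg])
    | form q =>
      have hvt : v i ≠ .top := by
        intro hc
        have := hWt hc
        rw [hx, hy] at this
        exact absurd this (by simp [V.imp, V.neg])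
      by_cases hK : Kept B v i
      · obtain ⟨ω, hω, hmem⟩ := hWk hK
        rw [hx, hy] at hω
        have hω' : ω = .neg (.imp p q) := by
          have : V.form (.neg (.imp p q)) = V.form ω := hω
          injection this with h'
          exact h'.symm
        rw [hω'] at hmem
        refine .counter p q (lab B i) B.length hmem
          (fun x hx b => h.fresh x hx B.length le_rfl b) ?_
        refine hg _ _ _ (h.pair ((Set.subset_insert _ _).trans (Set.subset_insert _ _)) θ
          (.neg χ) i hi b1 b2 hbits (by rw [hx]; simp) (by rw [pr_neg, hy]; simp [V.neg])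
          (fun hc => (hvt hc).elim) ?_ ?_)
        · intro _
          refine ⟨p, .neg q, hx, by rw [pr_neg, hy]; rfl, ?_, ?_⟩
          · exact Set.mem_insert_of_mem _ (Set.mem_insert _ _)
          · exact Set.mem_insert _ _
        · intro x hx n hn b
          rcases hx with rfl | rfl | hx
          · rintro (hc | hc)
            · simp only [Prod.mk.injEq] at hc; omega
            · exact h.wf.lab_fresh hi (by omega) b hc
          · rintro (hc | hc)
            · simp only [Prod.mk.injEq] at hc; omega
            · exact h.wf.lab_fresh hi (by omega) b hc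
          · exact hf2 x hx n hn b
      · refine hg _ _ Γ (h.pair (subset_refl _) θ (.neg χ) i hi b1 b2 hbits (by rw [hx]; simp)
          (by rw [pr_neg, hy]; simp [V.neg]) (fun hc => (hvt hc).elim)
          (fun hc => (hK hc).elim) hf2)

/-- The translation of a good branch gives a closed labelled set. -/
theorem main {P : ℕ → Prop} {S : Set Form}
    (hS : ∀ θ χ, .imp θ χ ∈ S → ∀ b, V.le (pr b (tr P θ)) (pr b (tr P χ)))
    {B : List Node} (hgood : Good S B) : ∀ l v Γ, Inv P B l v Γ → G Acceptable Γ := by
  induction hgood with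
  | @crash B i j a b hi hj hab hp =>
    intro l v Γ h
    have hli := get_lt hi
    have hlj := get_lt hj
    have h1 := h.val i a hi
    have h2 := h.val j b hj
    rw [hab, pr_neg] at h2
    have hbits : l i = true ∨ l j = true := by
      by_contra hc
      rw [not_or] at hc
      refine h.wf.descend hli hlj hp (fun x => l x = true) hc.1 hc.2 ?_ 0
        (Or.inl (h.wf.trace_zero i hli)) h.root
      intro y a ha x hx hlx
      exact h.bits y a ha x hx hlx
    have hle : ∃ Y, V.le (v i) Y ∧ v j = V.neg Y := by
      refine ⟨_, ?_, h2⟩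
      rw [h1]
      cases hbi : l i with
      | false =>
        rw [hbi] at hbits
        have hbj : l j = true := by simpa using hbits
        rw [hbj]
        exact V.le_refl _
      | true =>
        cases hbj : l j with
        | false => exact V.le_refl _
        | true => exact tr_order P a.fml
    obtain ⟨Y, hY1, hY2⟩ := hle
    have hnj := h.nb j hlj
    rw [hY2] at hnj
    have hni := h.nb i hli
    rcases Y with _ | _ | q
    · exact (hnj rfl).elim
    · exact (hni (V.eq_bot_of_le hY1)).elim
    · have hti : v i ≠ .top := by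
        intro hc; rw [hc] at hY1; exact hY1.elim
      have htj : v j ≠ .top := by
        rw [hY2]; simp [V.neg]
      have hnotop := h.wf.descend hli hlj hp (fun x => v x = .top) hti htj
        (fun y a ha x hx hlx => h.tp y a ha x hx hlx)
      have hKi : Kept B v i := fun x hx => hnotop x (Or.inl hx)
      have hKj : Kept B v j := fun x hx => hnotop x (Or.inr hx)
      obtain ⟨ξ, hξ, hmem⟩ := h.kept i hli hKi
      obtain ⟨η, hη, hmem'⟩ := h.kept j hlj hKj
      have hη' : η = .neg q := by
        rw [hY2] at hη
        have : V.form (.neg q) = V.form η := hη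
        injection this with h'
        exact h'.symm
      rw [hη'] at hmem'
      have hA : .imp ξ q ∈ Acceptable := by
        rw [hξ] at hY1
        exact hY1
      refine .recursive ξ q (lab B i) hmem hA ?_
      refine .crash q (lab B i) (lab B j) (Set.mem_insert _ _) (Set.mem_insert_of_mem _ hmem') ?_
      have key : ∀ c a c', (Trace B i c ∨ Trace B j c) → B[c]? = some a → a.partner = some c' →
          pid c' c ∈ lab B i ∪ lab B j := by
        intro c a c' ht ha hc
        obtain ⟨_, a', ha', hpa⟩ := h.wf.par c a c' ha hc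
        rcases (hp c a c' ha hc).mp ht with ht' | ht'
        · exact Or.inl ⟨c', a', c, ht', ha', hpa, rfl⟩
        · exact Or.inr ⟨c', a', c, ht', ha', hpa, rfl⟩
      have key2 : ∀ x ∈ lab B i ∪ lab B j, ∃ c a c', (Trace B i c ∨ Trace B j c) ∧
          B[c]? = some a ∧ a.partner = some c' ∧ x = pid c c' := by
        rintro x (⟨c, a, c', ht, ha, hc, hx⟩ | ⟨c, a, c', ht, ha, hc, hx⟩)
        · exact ⟨c, a, c', Or.inl ht, ha, hc, hx⟩
        · exact ⟨c, a, c', Or.inr ht, ha, hc, hx⟩
      intro k
      constructor
      · intro hk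
        obtain ⟨c, a, c', ht, ha, hc, hx⟩ := key2 _ hk
        obtain ⟨hne, _⟩ := h.wf.par c a c' ha hc
        have h3 := key c a c' ht ha hc
        simp only [pid, Prod.mk.injEq] at hx
        obtain ⟨hx1, hx2⟩ := hx
        have hlt : ¬ c' < c := by
          intro hcon
          simp [hcon] at hx2
        have e : pid c' c = (k, true) := by
          simp only [pid, Prod.mk.injEq]
          refine ⟨by rw [hx1, min_comm], ?_⟩
          rw [decide_eq_true_iff]
          omega
        rw [e] at h3
        exact h3
      · intro hk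
        obtain ⟨c, a, c', ht, ha, hc, hx⟩ := key2 _ hk
        obtain ⟨hne, _⟩ := h.wf.par c a c' ha hc
        have h3 := key c a c' ht ha hc
        simp only [pid, Prod.mk.injEq] at hx
        obtain ⟨hx1, hx2⟩ := hx
        have hlt : c' < c := by
          have := hx2.symm
          rwa [decide_eq_true_iff] at this
        have e : pid c' c = (k, false) := by
          simp only [pid, Prod.mk.injEq]
          refine ⟨by rw [hx1, min_comm], ?_⟩
          rw [decide_eq_false_iff_not]
          omega
        rw [e] at h3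
        exact h3
  | @negneg B i a θ hi ha _ ih =>
    intro l v Γ h
    refine h.step θ i (get_lt hi) ?_ (fun Γ' h' => ih _ _ Γ' h')
    rw [h.val i a hi, ha, pr_neg, pr_neg, Bool.not_not]
    exact V.negneg_le _
  | @conj B i a θ χ hi ha _ ih =>
    intro l v Γ h
    have hli := get_lt hi
    have h1 := h.val i a hi
    rw [ha] at h1
    have hle1 : V.le (v i) (pr (l i) (tr P θ)) := by
      rw [h1]
      cases l i
      · exact V.and_le_left _ _
      · exact V.and_le_left _ _
    have hle2 : V.le (v i) (pr (l i) (tr P χ)) := by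
      rw [h1]
      cases l i
      · exact V.and_le_right _ _
      · exact V.and_le_right _ _
    refine h.step θ i hli hle1 ?_
    intro Γ' h'
    have el : Function.update l B.length (l i) i = l i := Function.update_of_ne (by omega) _ _
    have ev : Function.update v B.length (pr (l i) (tr P θ)) i = v i :=
      Function.update_of_ne (by omega) _ _
    refine h'.step χ i (by simp; omega) (by rw [el, ev]; exact hle2) ?_
    intro Γ'' h''
    have e : (B ++ [(⟨θ, [i], none⟩ : Node)]) ++ [⟨χ, [i], none⟩] =
      B ++ [⟨θ, [i], none⟩, ⟨χ, [i], none⟩] := by simp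
    rw [e] at h''
    exact ih _ _ Γ'' h''
  | @negdisj B i a θ χ hi ha _ ih =>
    intro l v Γ h
    have hli := get_lt hi
    have h1 := h.val i a hi
    rw [ha, pr_neg] at h1
    have hle1 : V.le (v i) (pr (l i) (tr P (.neg θ))) := by
      rw [h1, pr_neg]
      apply V.neg_le
      cases l i
      · exact V.le_or_left _ _
      · exact V.le_or_left _ _
    have hle2 : V.le (v i) (pr (l i) (tr P (.neg χ))) := by
      rw [h1, pr_neg]
      apply V.neg_le
      cases l i
      · exact V.le_or_right _ _
      · exact V.le_or_right _ _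
    refine h.step (.neg θ) i hli hle1 ?_
    intro Γ' h'
    have el : Function.update l B.length (l i) i = l i := Function.update_of_ne (by omega) _ _
    have ev : Function.update v B.length (pr (l i) (tr P (.neg θ))) i = v i :=
      Function.update_of_ne (by omega) _ _
    refine h'.step (.neg χ) i (by simp; omega) (by rw [el, ev]; exact hle2) ?_
    intro Γ'' h''
    have e : (B ++ [(⟨.neg θ, [i], none⟩ : Node)]) ++ [⟨.neg χ, [i], none⟩] =
      B ++ [⟨.neg θ, [i], none⟩, ⟨.neg χ, [i], none⟩] := by simp
    rw [e] at h''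
    exact ih _ _ Γ'' h''
  | @disj B i a θ χ hi ha _ _ ih1 ih2 =>
    intro l v Γ h
    have h1 := h.val i a hi
    rw [ha] at h1
    refine h.fork θ χ i (get_lt hi) ?_ (fun Γ' h' => ih1 _ _ Γ' h') (fun Γ' h' => ih2 _ _ Γ' h')
    rw [h1]
    cases l i
    · exact V.le_refl _
    · exact V.le_refl _
  | @negconj B i a θ χ hi ha _ _ ih1 ih2 =>
    intro l v Γ h
    have h1 := h.val i a hi
    rw [ha, pr_neg] at h1
    refine h.fork (.neg θ) (.neg χ) i (get_lt hi) ?_ (fun Γ' h' => ih1 _ _ Γ' h')
      (fun Γ' h' => ih2 _ _ Γ' h')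
    rw [h1, pr_neg, pr_neg]
    cases l i
    · exact V.neg_and_le _ _
    · exact V.neg_and_le _ _
  | @counter B i a θ χ hi ha _ ih =>
    intro l v Γ h
    have hli := get_lt hi
    have h1 := h.val i a hi
    rw [ha, pr_neg] at h1
    have hnb := h.nb i hli
    cases hb : l i with
    | false =>
      rw [hb] at h1
      have h1' : v i = V.neg (V.imp (pr false (tr P θ)) (pr (!false) (tr P χ))) := h1
      refine h.pairstep θ χ i hli false false (fun hc => by rw [hb] at hc; exact absurd hc (by simp))
        (by rw [← h1']; exact hnb) (fun hc => by rw [← h1']; exact hc) ?_ ih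
      intro hK
      rw [← h1']
      exact h.kept i hli hK
    | true =>
      rw [hb] at h1
      have h1' : v i = V.neg (V.meet (V.imp (pr false (tr P θ)) (pr (!true) (tr P χ)))
        (V.imp (pr true (tr P θ)) (pr (!false) (tr P χ)))) := h1
      set J := V.imp (pr false (tr P θ)) (pr (!true) (tr P χ)) with hJ
      set K := V.imp (pr true (tr P θ)) (pr (!false) (tr P χ)) with hK'
      have optA : ∀ Γ₀, Inv P B l v Γ₀ → V.neg J ≠ .bot → (v i = .top → V.neg J = .top) →
          (Kept B v i → ∃ ω, V.neg J = .form ω ∧ (ω, lab B i) ∈ Γ₀) → G Acceptable Γ₀ := by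
        intro Γ₀ h₀ a1 a2 a3
        exact h₀.pairstep θ χ i hli false true (fun _ => Or.inr rfl) a1 a2 a3 ih
      have optB : ∀ Γ₀, Inv P B l v Γ₀ → V.neg K ≠ .bot → (v i = .top → V.neg K = .top) →
          (Kept B v i → ∃ ω, V.neg K = .form ω ∧ (ω, lab B i) ∈ Γ₀) → G Acceptable Γ₀ := by
        intro Γ₀ h₀ a1 a2 a3
        exact h₀.pairstep θ χ i hli true false (fun _ => Or.inl rfl) a1 a2 a3 ih
      have eqA : v i = V.neg J → G Acceptable Γ := by
        intro he
        refine optA Γ h (by rw [← he]; exact hnb) (fun hc => by rw [← he]; exact hc) ?_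
        intro hk
        rw [← he]
        exact h.kept i hli hk
      have eqB : v i = V.neg K → G Acceptable Γ := by
        intro he
        refine optB Γ h (by rw [← he]; exact hnb) (fun hc => by rw [← he]; exact hc) ?_
        intro hk
        rw [← he]
        exact h.kept i hli hk
      by_cases hJK : J = K
      · apply eqA
        rw [h1', V.meet, if_pos hJK]
      · rw [V.meet, if_neg hJK] at h1'
        clear_value J K
        rcases J with _ | _ | p
        · exact eqB h1'
        · have hvt : v i = .top := h1'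
          refine optA Γ h (by simp [V.neg]) (fun _ => rfl) ?_
          intro hk
          exact (hk.ne hvt).elim
        · rcases K with _ | _ | q
          · exact eqA h1'
          · have hvt : v i = .top := h1'
            refine optB Γ h (by simp [V.neg]) (fun _ => rfl) ?_
            intro hk
            exact (hk.ne hvt).elim
          · have hvf : v i = .form (.neg (.and p q)) := h1'
            by_cases hk : Kept B v i
            · obtain ⟨ω, hω, hmem⟩ := h.kept i hli hk
              have hω' : ω = .neg (.and p q) := by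
                rw [hvf] at hω
                injection hω with h'
                exact h'.symm
              rw [hω'] at hmem
              have hfr : ∀ n, B.length ≤ n → ∀ b, (n, b) ∉ lab B i :=
                fun n hn b => h.wf.lab_fresh hli hn b
              refine .negconj p q (lab B i) hmem ?_ ?_
              · refine optA _ (h.mono (Set.subset_insert _ _) (fresh_insert h.fresh hfr))
                  (by simp [V.neg]) (fun hc => by rw [hvf] at hc; exact absurd hc (by simp)) ?_
                intro _
                exact ⟨_, rfl, Set.mem_insert _ _⟩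
              · refine optB _ (h.mono (Set.subset_insert _ _) (fresh_insert h.fresh hfr))
                  (by simp [V.neg]) (fun hc => by rw [hvf] at hc; exact absurd hc (by simp)) ?_
                intro _
                exact ⟨_, rfl, Set.mem_insert _ _⟩
            · exact optA Γ h (by simp [V.neg])
                (fun hc => by rw [hvf] at hc; exact absurd hc (by simp)) (fun hc => (hk hc).elim)
  | @mp B i j a b χ hi hj hb _ ih =>
    intro l v Γ h
    have hli := get_lt hi
    have hlj := get_lt hj
    have h1 := h.val i a hi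
    have h2 := h.val j b hj
    rw [hb] at h2
    cases hbj : l j with
    | false =>
      rw [hbj] at h2
      refine h.mpstep χ i j hli hlj (l i) (pr (l i) (tr P a.fml)) (fun hc => hc)
        (fun hc => by rw [hbj] at hc; exact absurd hc (by simp)) (by rw [h1]; exact V.le_refl _)
        ?_ (fun Γ' h' => ih _ _ Γ' h')
      rw [h2]
      cases l i
      · exact V.meet_le_left _ _
      · exact V.meet_le_right _ _
    | true =>
      rw [hbj] at h2
      refine h.mpstep χ i j hli hlj true (pr false (tr P a.fml)) (fun _ => rfl) (fun _ => rfl) ?_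
        (by rw [h2]; exact V.le_refl _) (fun Γ' h' => ih _ _ Γ' h')
      rw [h1]
      cases l i
      · exact V.le_refl _
      · exact tr_order P a.fml
  | @recursive B i a χ hi hSa _ ih =>
    intro l v Γ h
    refine h.step χ i (get_lt hi) ?_ (fun Γ' h' => ih _ _ Γ' h')
    rw [h.val i a hi]
    exact hS _ _ hSa _

theorem G.nonempty {S : Set Form} {Γ : Set (Form × Set (ℕ × Bool))} (h : G S Γ) :
    Γ.Nonempty := by
  cases h with
  | crash ζ C D h1 h2 hp => exact ⟨_, h1⟩
  | disj θ χ C h g1 g2 => exact ⟨_, h⟩
  | negconj θ χ C h g1 g2 => exact ⟨_, h⟩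
  | negneg θ C h g => exact ⟨_, h⟩
  | conj θ χ C h g => exact ⟨_, h⟩
  | negdisj θ χ C h g => exact ⟨_, h⟩
  | counter θ χ C k h hk g => exact ⟨_, h⟩
  | mp θ χ C D h1 h2 g => exact ⟨_, h1⟩
  | recursive θ χ C h hS g => exact ⟨_, h⟩

theorem Inv.init (P : ℕ → Prop) (ψ : Form) (x : V) (hx : x = V.neg (tr P ψ).1)
    (hnb : x ≠ .bot) (Γ : Set (Form × Set (ℕ × Bool)))
    (hΓ : x ≠ .top → ∃ ξ, x = .form ξ ∧ (ξ, ∅) ∈ Γ)
    (hf : ∀ y ∈ Γ, y.2 = ∅) :
    Inv P [⟨.neg ψ, [], none⟩] (fun _ => true) (fun _ => x) Γ := by
  have hget : ∀ (k : ℕ) (a : Node), ([⟨.neg ψ, [], none⟩] : List Node)[k]? = some a →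
      k = 0 ∧ a = ⟨.neg ψ, [], none⟩ := by
    intro k a h
    have : ([⟨.neg ψ, [], none⟩] : List Node) = [] ++ [⟨.neg ψ, [], none⟩] := rfl
    rw [this] at h
    rcases get_snoc h with ⟨h1, _⟩ | ⟨h1, h2⟩
    · exact absurd h1 (by simp)
    · exact ⟨h1, h2⟩
  have hlab : lab [⟨.neg ψ, [], none⟩] 0 = ∅ := by
    ext y
    rw [mem_lab_iff (a := ⟨.neg ψ, [], none⟩) (by simp)]
    simp
  constructor
  · exact WF.root _
  · rfl
  · intro y a ha m hm
    obtain ⟨rfl, rfl⟩ := hget y a ha
    exact absurd hm (by simp)
  · intro k a ha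
    obtain ⟨rfl, rfl⟩ := hget k a ha
    rw [pr_neg]
    exact hx
  · intro k _
    exact hnb
  · intro y a ha m hm
    obtain ⟨rfl, rfl⟩ := hget y a ha
    exact absurd hm (by simp)
  · intro k hk hK
    have : k = 0 := by simpa using hk
    subst this
    obtain ⟨ξ, h1, h2⟩ := hΓ hK.ne
    exact ⟨ξ, h1, by rw [hlab]; exact h2⟩
  · intro y hy n _ b
    rw [hf y hy]
    exact Set.notMem_empty _

/-- The pair translation preserves acceptability. -/
theorem acceptable_tr (P : ℕ → Prop) {φ : Form} (hφ : φ ∈ Acceptable) :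
    (tr P φ).1 ≠ .bot ∧ ∀ x, V.le (tr P φ).1 (.form x) → x ∈ Acceptable := by
  refine hφ {φ | (tr P φ).1 ≠ .bot ∧ ∀ x, V.le (tr P φ).1 (.form x) → x ∈ Acceptable} ?_
  intro ψ hψ
  have hS : ∀ θ χ, Form.imp θ χ ∈ {φ | (tr P φ).1 ≠ .bot ∧
      ∀ x, V.le (tr P φ).1 (.form x) → x ∈ Acceptable} →
      ∀ b, V.le (pr b (tr P θ)) (pr b (tr P χ)) := by
    rintro θ χ ⟨h1, h2⟩ b
    have h3 : V.le (tr P (.imp θ χ)).1 (V.imp (pr b (tr P θ)) (pr b (tr P χ))) := by
      cases b
      · exact V.meet_le_left _ _
      · exact V.meet_le_right _ _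
    cases hx : pr b (tr P θ) with
    | bot => exact V.bot_le _
    | top =>
      cases hy : pr b (tr P χ) with
      | top => exact V.le_refl _
      | bot => rw [hx, hy] at h3; exact (h1 (V.eq_bot_of_le h3)).elim
      | form q => rw [hx, hy] at h3; exact (h1 (V.eq_bot_of_le h3)).elim
    | form p =>
      cases hy : pr b (tr P χ) with
      | top => exact V.le_top _
      | bot => rw [hx, hy] at h3; exact (h1 (V.eq_bot_of_le h3)).elim
      | form q => rw [hx, hy] at h3; exact h2 _ h3
  have hnb : (tr P ψ).1 ≠ .bot := by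
    intro hc
    have hG := main hS hψ _ _ ∅ (Inv.init P ψ .top (by rw [hc]; rfl) (by simp) ∅
      (fun h => (h rfl).elim) (fun y hy => hy.elim))
    exact Set.not_nonempty_empty hG.nonempty
  refine ⟨hnb, ?_⟩
  intro x hx
  cases hy : (tr P ψ).1 with
  | bot => exact (hnb hy).elim
  | top => rw [hy] at hx; exact hx.elim
  | form y =>
    rw [hy] at hx
    have hA : .imp y x ∈ Acceptable := hx
    apply acc_of_G
    refine .recursive (.neg x) (.neg y) ∅ (Set.mem_singleton _) (acc_contra hA) ?_
    refine main hS hψ _ _ _ (Inv.init P ψ (.form (.neg y)) (by rw [hy]; rfl) (by simp) _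
      (fun _ => ⟨_, rfl, Set.mem_insert _ _⟩) ?_)
    intro z hz
    rcases hz with rfl | rfl
    · rfl
    · rfl

/-- The omissibility property of the set of acceptable formulas. -/
theorem omissibility (α β γ : Form) (hβ : ∀ n, Occurs n β → ¬ Occurs n α ∧ ¬ Occurs n γ)
    (h : .imp (.and α β) γ ∈ Acceptable ∨ .imp α (.or β γ) ∈ Acceptable) :
    .imp α γ ∈ Acceptable := by
  have hα : tr (fun n => Occurs n β) α = (.form α, .form α) :=
    tr_diag _ α (fun n hn hn' => (hβ n hn').1 hn)
  have hγ : tr (fun n => Occurs n β) γ = (.form γ, .form γ) :=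
    tr_diag _ γ (fun n hn hn' => (hβ n hn').2 hn)
  have hb : tr (fun n => Occurs n β) β = (.top, .bot) := tr_all _ β (fun n hn => hn)
  rcases h with h | h
  · refine (acceptable_tr (fun n => Occurs n β) h).2 _ ?_
    have e : (tr (fun n => Occurs n β) (.imp (.and α β) γ)).1 = .form (.imp α γ) := by
      simp [tr, hα, hγ, hb, V.and, V.imp, V.meet]
    rw [e]
    exact acc_self _
  · refine (acceptable_tr (fun n => Occurs n β) h).2 _ ?_
    have e : (tr (fun n => Occurs n β) (.imp α (.or β γ))).1 = .form (.imp α γ) := by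
      simp [tr, hα, hγ, hb, V.or, V.imp, V.meet, V.and]
    rw [e]
    exact acc_self _

end Q220.TruthTree
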